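import Pool.Agent.Helper5.TB.Five

/-!
# The dilogarithm ladder of a twist region
-/

set_option autoImplicit false

namespace Pool.Agent.Helper5.TB

open Finset

/-- the potential of the ladder -/
noncomputable def EE (l a b : ℂ) : ℝ := BW (l * a / b) + BW (l⁻¹ * a / b)

/-- One step of the ladder: `a, b, c` are three consecutive terms of the sequence with
`c + a = (l + l⁻¹) b` and `a c = b² - s²`. -/
lemma fan_step {l a b c s : ℂ} (hl : l ≠ 0) (hb : b ≠ 0) (hs : s ≠ 0)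
    (h1 : c + a = (l + l⁻¹) * b) (h2 : a * c = b ^ 2 - s ^ 2) :
    BW ((b / s) ^ 2) = EE l a b - EE l b c := by
  have hll : l * l⁻¹ = 1 := mul_inv_cancel₀ hl
  have e1 : 1 - l * a / b * (l⁻¹ * c / b) = (s / b) ^ 2 := by
    rw [div_mul_div_comm, show l * a * (l⁻¹ * c) = (l * l⁻¹) * (a * c) by ring, hll, h2]
    field_simp
    ring
  have e1' : 1 - l * a / b * (l⁻¹ * c / b) ≠ 0 := by
    rw [e1]; exact pow_ne_zero 2 (div_ne_zero hs hb)
  have f1 : (1 - l * a / b) * (1 - l⁻¹ * a / b) = 1 - l * a / b * (l⁻¹ * c / b) := by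
    have : c = (l + l⁻¹) * b - a := by linear_combination h1
    rw [this]
    field_simp
    ring
  have f2 : (1 - l⁻¹ * c / b) * (1 - l * c / b) = 1 - l * a / b * (l⁻¹ * c / b) := by
    have : a = (l + l⁻¹) * b - c := by linear_combination h1
    rw [this]
    field_simp
    ring
  have g1 : (1 - l * a / b) / (1 - l * a / b * (l⁻¹ * c / b)) = (1 - l⁻¹ * a / b)⁻¹ := by
    rw [← f1] at e1' ⊢
    have := (mul_ne_zero_iff.1 e1').1
    rw [← div_div, div_self this, one_div]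
  have g2 : (1 - l⁻¹ * c / b) / (1 - l * a / b * (l⁻¹ * c / b)) = (1 - l * c / b)⁻¹ := by
    rw [← f2] at e1' ⊢
    have := (mul_ne_zero_iff.1 e1').1
    rw [← div_div, div_self this, one_div]
  have key := five_term e1'
  rw [g1, g2, BW_one_sub_inv, BW_one_sub_inv, e1] at key
  have k1 : BW ((s / b) ^ 2) = - BW ((b / s) ^ 2) := by
    rw [← BW_inv]
    congr 1
    rw [← inv_pow, inv_div]
  have k2 : BW (l⁻¹ * c / b) = - BW (l * b / c) := by
    rw [← BW_inv]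
    congr 1
    rw [inv_div, div_eq_mul_inv, div_eq_mul_inv, mul_inv]
    ring
  have k3 : BW (l * c / b) = - BW (l⁻¹ * b / c) := by
    rw [← BW_inv]
    congr 1
    rw [inv_div, div_eq_mul_inv, div_eq_mul_inv, mul_inv, inv_inv]
    ring
  rw [k1, k2, k3] at key
  unfold EE
  linarith only [key]

/-- The end of the ladder. -/
lemma close_step {l a b c : ℂ} (hl : l ≠ 0) (hb : b ≠ 0) (hc : c ≠ 0) (h0 : l + l⁻¹ ≠ 0)
    (h1 : c + a = (l + l⁻¹) * b) (h3 : 1 - l ^ 2 * a / c ≠ 0) (h4 : 1 - (l ^ 2)⁻¹ * a / c ≠ 0) :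
    EE l a b + EE l b c = BW (l ^ 2 * a / c) + BW ((l ^ 2)⁻¹ * a / c) - 2 * BW (-(a / c)) := by
  have hinv : (l ^ 2)⁻¹ = l⁻¹ ^ 2 := by rw [inv_pow]
  have p1 : l * a / b * (l * b / c) = l ^ 2 * a / c := by field_simp
  have p2 : l⁻¹ * a / b * (l⁻¹ * b / c) = (l ^ 2)⁻¹ * a / c := by field_simp
  have hT : 1 - -(a / c) = (l + l⁻¹) * b / c := by
    rw [← h1]; field_simp; ring
  have hT0 : (l + l⁻¹) * b / c ≠ 0 := div_ne_zero (mul_ne_zero h0 hb) hc
  have q1 : (1 - l * a / b) / (1 - l ^ 2 * a / c) = (1 - -(a / c))⁻¹ := by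
    rw [hT, inv_div, div_eq_div_iff h3 (mul_ne_zero h0 hb)]
    have : c = (l + l⁻¹) * b - a := by linear_combination h1
    field_simp
    rw [this]
    field_simp
    ring
  have q2 : (1 - l⁻¹ * a / b) / (1 - (l ^ 2)⁻¹ * a / c) = (1 - -(a / c))⁻¹ := by
    rw [hT, inv_div, div_eq_div_iff h4 (mul_ne_zero h0 hb)]
    have : c = (l + l⁻¹) * b - a := by linear_combination h1
    field_simp
    rw [this]
    field_simp
    ring
  have r1 : (1 - l * b / c) / (1 - l ^ 2 * a / c) = l⁻¹ / (l + l⁻¹) := by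
    rw [div_eq_div_iff h3 h0]
    have : c = (l + l⁻¹) * b - a := by linear_combination h1
    field_simp
    rw [this]
    field_simp
    ring
  have r2 : (1 - l⁻¹ * b / c) / (1 - (l ^ 2)⁻¹ * a / c) = l / (l + l⁻¹) := by
    rw [div_eq_div_iff h4 h0]
    have : c = (l + l⁻¹) * b - a := by linear_combination h1
    field_simp
    rw [this]
    field_simp
    ring
  have t1 := five_term (x := l * a / b) (y := l * b / c) (by rw [p1]; exact h3)
  have t2 := five_term (x := l⁻¹ * a / b) (y := l⁻¹ * b / c) (by rw [p2]; exact h4)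
  rw [p1, q1, r1, BW_one_sub_inv, BW_one_sub] at t1
  rw [p2, q2, r2, BW_one_sub_inv, BW_one_sub] at t2
  have hsum : l⁻¹ / (l + l⁻¹) = 1 - l / (l + l⁻¹) := by
    rw [eq_sub_iff_add_eq, ← add_div, add_comm, div_self h0]
  rw [hsum, BW_one_sub] at t1
  unfold EE
  linarith only [t2, t1]

/-- The sum over the ladder. -/
lemma ladder_sum {l : ℂ} (s : ℕ → ℂ) (hl : l ≠ 0) (h0 : l + l⁻¹ ≠ 0)
    (hs : ∀ j, 1 ≤ j → s j ≠ 0)
    (h1 : ∀ j, s (j + 2) + s j = (l + l⁻¹) * s (j + 1))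
    (h2 : ∀ j, s j * s (j + 2) = s (j + 1) ^ 2 - s 1 ^ 2) (hz : s 0 = 0) (r : ℕ) (hr : 2 ≤ r) :
    ∑ j ∈ Finset.Ico 2 r, BW ((s j / s 1) ^ 2) = - EE l (s (r - 1)) (s r) := by
  induction r, hr using Nat.le_induction with
  | base =>
    have e2 : s 2 = (l + l⁻¹) * s 1 := by
      have := h1 0
      rw [hz] at this
      simpa using this
    have hs1 := hs 1 le_rfl
    simp only [Finset.Ico_self, Finset.sum_empty, Nat.add_one_sub_one]
    unfold EE
    have a1 : l * s 1 / s 2 = l / (l + l⁻¹) := by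
      rw [e2, mul_div_mul_right _ _ hs1]
    have a2 : l⁻¹ * s 1 / s 2 = 1 - l / (l + l⁻¹) := by
      rw [e2, mul_div_mul_right _ _ hs1, eq_sub_iff_add_eq, ← add_div, add_comm, div_self h0]
    rw [a1, a2, BW_one_sub]
    ring
  | succ n hn ih =>
    rw [Finset.sum_Ico_succ_top hn, ih]
    obtain ⟨m, rfl⟩ : ∃ m, n = m + 1 := ⟨n - 1, by omega⟩
    have := fan_step (l := l) (a := s m) (b := s (m + 1)) (c := s (m + 2)) (s := s 1) hl
      (hs _ (by omega)) (hs 1 le_rfl) (h1 m) (h2 m)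
    rw [this]
    simp only [Nat.add_sub_cancel]
    ring

/-- The total value. -/
theorem ladder_total {l : ℂ} (s : ℕ → ℂ) (hl : l ≠ 0) (h0 : l + l⁻¹ ≠ 0)
    (hs : ∀ j, 1 ≤ j → s j ≠ 0)
    (h1 : ∀ j, s (j + 2) + s j = (l + l⁻¹) * s (j + 1))
    (h2 : ∀ j, s j * s (j + 2) = s (j + 1) ^ 2 - s 1 ^ 2) (hz : s 0 = 0) (r : ℕ) (hr : 2 ≤ r)
    (h3 : 1 - l ^ 2 * s (r - 1) / s (r + 1) ≠ 0)
    (h4 : 1 - (l ^ 2)⁻¹ * s (r - 1) / s (r + 1) ≠ 0) :
    2 * ∑ j ∈ Finset.Ico 2 r, BW ((s j / s 1) ^ 2) + BW ((s r / s 1) ^ 2) =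
      2 * BW (-(s (r - 1) / s (r + 1))) - BW (l ^ 2 * s (r - 1) / s (r + 1)) -
        BW ((l ^ 2)⁻¹ * s (r - 1) / s (r + 1)) := by
  rw [ladder_sum s hl h0 hs h1 h2 hz r hr]
  obtain ⟨m, rfl⟩ : ∃ m, r = m + 1 := ⟨r - 1, by omega⟩
  have f := fan_step (l := l) (a := s m) (b := s (m + 1)) (c := s (m + 2)) (s := s 1) hl
      (hs _ (by omega)) (hs 1 le_rfl) (h1 m) (h2 m)
  simp only [Nat.add_sub_cancel] at h3 h4 ⊢
  have g := close_step (l := l) (a := s m) (b := s (m + 1)) (c := s (m + 2)) hl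
      (hs _ (by omega)) (hs _ (by omega)) h0 (h1 m) h3 h4
  rw [show m + 1 + 1 = m + 2 from rfl]
  rw [f]
  linarith only [g]

end Pool.Agent.Helper5.TB
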