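import Pool.Agent.Helper9.TB.GFDefs

/-!
# The Bloch-Wigner dilogarithm in terms of the Lobachevsky function

`BW z = Λ(arg z) - Λ(arg (1 - z)) + Λ(arg (1 - z) - arg z)`.
-/

set_option autoImplicit false

namespace Pool.Agent.Helper5.TB

open Real Complex Filter Topology MeasureTheory Set
open Pool.Agent.Helper9.TB (Lob)

/-! ### The Lobachevsky function -/

lemma log_sin_integrable (a b : ℝ) :
    IntervalIntegrable (fun t => Real.log |2 * Real.sin t|) volume a b := by
  have h : MeromorphicOn (fun t : ℝ => 2 * Real.sin t) (Set.uIcc a b) := by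
    intro x _
    apply AnalyticAt.meromorphicAt
    fun_prop
  have h2 := h.intervalIntegrable_log
  have h3 : (Real.log ∘ fun t : ℝ => 2 * Real.sin t) = fun t => Real.log |2 * Real.sin t| := by
    funext t
    exact (Real.log_abs _).symm
  rw [h3] at h2
  exact h2

lemma Lob_continuous : Continuous Lob :=
  (intervalIntegral.continuous_primitive (fun a b => log_sin_integrable a b) 0).neg

lemma Lob_zero : Lob 0 = 0 := by simp [Lob]

lemma Lob_neg (x : ℝ) : Lob (-x) = - Lob x := by
  unfold Lob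
  have h := intervalIntegral.integral_comp_neg (a := 0) (b := x)
    (fun t => Real.log |2 * Real.sin t|)
  simp only [Real.sin_neg, mul_neg, abs_neg, neg_zero] at h
  rw [h, intervalIntegral.integral_symm (-x) 0]

lemma Lob_pi : Lob π = 0 := by
  unfold Lob
  have h1 : ∫ t in (0 : ℝ)..π, Real.log |2 * Real.sin t| =
      ∫ t in (0 : ℝ)..π, (Real.log 2 + Real.log (Real.sin t)) := by
    apply intervalIntegral.integral_congr_ae
    have h3 : ∀ᵐ t : ℝ ∂volume, t ≠ π := by
      rw [ae_iff]; simp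
    filter_upwards [h3] with t ht hm
    rw [Set.uIoc_of_le Real.pi_pos.le] at hm
    have hs : 0 < Real.sin t := Real.sin_pos_of_pos_of_lt_pi hm.1 (lt_of_le_of_ne hm.2 ht)
    rw [abs_of_pos (by positivity), Real.log_mul (by norm_num) hs.ne']
  rw [h1, intervalIntegral.integral_add (by simp) (by
    exact intervalIntegrable_log_sin), intervalIntegral.integral_const, smul_eq_mul,
    integral_log_sin_zero_pi]
  ring

lemma Lob_add_pi (x : ℝ) : Lob (x + π) = Lob x := by
  have h0 := Lob_pi
  unfold Lob at h0 ⊢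
  have h := intervalIntegral.integral_comp_add_right (a := 0) (b := x)
    (fun t => Real.log |2 * Real.sin t|) π
  simp only [Real.sin_add_pi, mul_neg, abs_neg, zero_add] at h
  rw [h, ← intervalIntegral.integral_add_adjacent_intervals (log_sin_integrable 0 π)
    (log_sin_integrable π (x + π))]
  linarith

lemma Lob_periodic : Function.Periodic Lob π := Lob_add_pi

lemma Lob_sub_pi (x : ℝ) : Lob (x - π) = Lob x := Lob_periodic.sub_eq x

lemma Lob_pi_sub (x : ℝ) : Lob (π - x) = - Lob x := by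
  rw [← Lob_neg, ← Lob_sub_pi (π - x)]
  congr 1; ring

lemma Lob_hasDerivAt {x : ℝ} (h0 : Real.sin x ≠ 0) :
    HasDerivAt Lob (-Real.log |2 * Real.sin x|) x := by
  have h := (intervalIntegral.integral_hasDerivAt_right (log_sin_integrable 0 x)
    (f := fun t => Real.log |2 * Real.sin t|) (b := x) ?_ ?_).neg
  · exact h
  · apply Measurable.stronglyMeasurable _ |>.stronglyMeasurableAtFilter
    fun_prop
  · apply ContinuousAt.log
    · fun_prop
    · simpa using h0

/-- The Lobachevsky function of an angle. -/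
noncomputable def LobA (θ : Real.Angle) : ℝ :=
  Function.Periodic.lift (f := Lob) (c := 2 * π) (fun x => by
    rw [two_mul, ← add_assoc, Lob_add_pi, Lob_add_pi]) θ

lemma LobA_coe (x : ℝ) : LobA (x : Real.Angle) = Lob x := rfl

lemma LobA_continuous : Continuous LobA := Lob_continuous.quotient_liftOn' _

/-- The Bloch-Wigner dilogarithm. -/
noncomputable def BW (z : ℂ) : ℝ :=
  Lob (arg z) - Lob (arg (1 - z)) + Lob (arg (1 - z) - arg z)

lemma BW_zero : BW 0 = 0 := by simp [BW, Lob_zero]

lemma BW_one_sub (z : ℂ) : BW (1 - z) = - BW z := by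
  unfold BW
  have : 1 - (1 - z) = z := by ring
  rw [this, show arg z - arg (1 - z) = -(arg (1 - z) - arg z) by ring, Lob_neg]
  ring

lemma BW_one : BW 1 = 0 := by
  have := BW_one_sub 0
  rw [sub_zero, BW_zero, neg_zero] at this
  exact this

lemma BW_eq_LobA (z : ℂ) : BW z = LobA (arg z) - LobA (arg (1 - z)) +
    LobA ((arg (1 - z) : Real.Angle) - (arg z : Real.Angle)) := by
  rw [← Real.Angle.coe_sub]
  rfl

lemma BW_continuousAt_of_ne {z : ℂ} (h0 : z ≠ 0) (h1 : z ≠ 1) : ContinuousAt BW z := by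
  have e : BW = fun z => LobA (arg z) - LobA (arg (1 - z)) +
    LobA ((arg (1 - z) : Real.Angle) - (arg z : Real.Angle)) := by
    funext z; exact BW_eq_LobA z
  rw [e]
  have c0 : ContinuousAt (fun z : ℂ => (arg z : Real.Angle)) z := Complex.continuousAt_arg_coe_angle h0
  have c1 : ContinuousAt (fun z : ℂ => (arg (1 - z) : Real.Angle)) z := by
    have := Complex.continuousAt_arg_coe_angle (x := 1 - z) (sub_ne_zero.2 (Ne.symm h1))
    exact ContinuousAt.comp (f := fun z : ℂ => 1 - z) (g := ((↑) ∘ arg : ℂ → Real.Angle)) this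
      (by fun_prop)
  have l := LobA_continuous
  exact ((l.continuousAt.comp c0).sub (l.continuousAt.comp c1)).add
    (l.continuousAt.comp (c1.sub c0))

lemma BW_continuousAt_zero : ContinuousAt BW 0 := by
  have hu : UniformContinuousOn Lob (Set.Icc (-10) 10) :=
    isCompact_Icc.uniformContinuousOn_of_continuous Lob_continuous.continuousOn
  rw [Metric.uniformContinuousOn_iff] at hu
  rw [Metric.continuousAt_iff]
  intro ε hε
  obtain ⟨δ, hδ, h⟩ := hu (ε / 2) (by positivity)
  have c1 : ContinuousAt (fun z : ℂ => arg (1 - z)) 0 := by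
    apply ContinuousAt.comp (f := fun z : ℂ => 1 - z) (g := arg)
    · apply Complex.continuousAt_arg
      simp
    · fun_prop
  rw [Metric.continuousAt_iff] at c1
  obtain ⟨η, hη, hc⟩ := c1 (min δ 1) (by positivity)
  refine ⟨η, hη, fun z hz => ?_⟩
  have hb := hc hz
  simp only [sub_zero, Complex.arg_one, Real.dist_eq] at hb
  have hb1 : |arg (1 - z)| < δ := lt_of_lt_of_le hb (min_le_left _ _)
  have hb2 : |arg (1 - z)| < 1 := lt_of_lt_of_le hb (min_le_right _ _)
  have ha := Complex.abs_arg_le_pi z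
  have hpi := Real.pi_lt_four
  rw [BW_zero, Real.dist_eq, sub_zero]
  set a := arg z
  set b := arg (1 - z)
  rw [abs_le] at ha
  rw [abs_lt] at hb2
  have e1 := h (b - a) ⟨by linarith, by linarith⟩ (-a) ⟨by linarith, by linarith⟩
    (by rw [Real.dist_eq]; rw [show b - a - -a = b by ring]; exact hb1)
  have e2 := h b ⟨by linarith, by linarith⟩ 0 ⟨by norm_num, by norm_num⟩
    (by rw [Real.dist_eq, sub_zero]; exact hb1)
  rw [Real.dist_eq] at e1 e2
  rw [Lob_zero, sub_zero] at e2
  rw [Lob_neg] at e1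
  have e3 : BW z = (Lob (b - a) - - Lob a) - Lob b := by
    unfold BW; ring
  rw [e3]
  calc |(Lob (b - a) - - Lob a) - Lob b| ≤ |Lob (b - a) - - Lob a| + |Lob b| := abs_sub _ _
    _ < ε := by linarith

lemma BW_continuous : Continuous BW := by
  rw [continuous_iff_continuousAt]
  intro z
  by_cases h0 : z = 0
  · rw [h0]; exact BW_continuousAt_zero
  by_cases h1 : z = 1
  · rw [h1]
    have e : BW = fun z => - BW (1 - z) := by
      funext z; rw [BW_one_sub]; ring
    rw [e]
    apply ContinuousAt.neg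
    apply ContinuousAt.comp (f := fun z : ℂ => 1 - z) (g := BW)
    · simpa using BW_continuousAt_zero
    · fun_prop
  exact BW_continuousAt_of_ne h0 h1

/-! ### Symmetries -/

lemma LobA_neg (θ : Real.Angle) : LobA (-θ) = - LobA θ := by
  induction θ using Real.Angle.induction_on
  rw [← Real.Angle.coe_neg, LobA_coe, LobA_coe, Lob_neg]

lemma LobA_add_pi (θ : Real.Angle) : LobA (θ + (π : ℝ)) = LobA θ := by
  induction θ using Real.Angle.induction_on
  rw [← Real.Angle.coe_add, LobA_coe, LobA_coe, Lob_add_pi]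

lemma arg_neg_angle {z : ℂ} (hz : z ≠ 0) : (arg (-z) : Real.Angle) = (arg z : Real.Angle) + (π : ℝ) := by
  have := Complex.arg_neg_coe_angle hz
  exact this

lemma BW_inv (z : ℂ) : BW z⁻¹ = - BW z := by
  by_cases h0 : z = 0
  · rw [h0, inv_zero, BW_zero, neg_zero]
  by_cases h1 : z = 1
  · rw [h1, inv_one, BW_one, neg_zero]
  have h1' : 1 - z ≠ 0 := sub_ne_zero.2 (Ne.symm h1)
  have ea : (arg z⁻¹ : Real.Angle) = - (arg z : Real.Angle) := Complex.arg_inv_coe_angle z
  have eb : (arg (1 - z⁻¹) : Real.Angle) = (arg (1 - z) : Real.Angle) - (arg z : Real.Angle) +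
      (π : ℝ) := by
    have : 1 - z⁻¹ = -((1 - z) / z) := by field_simp; ring
    rw [this, arg_neg_angle (div_ne_zero h1' h0), Complex.arg_div_coe_angle h1' h0]
  rw [BW_eq_LobA, BW_eq_LobA, ea, eb, LobA_neg, LobA_add_pi]
  have e3 : (arg (1 - z) : Real.Angle) - (arg z : Real.Angle) + (π : ℝ) - - (arg z : Real.Angle) =
      (arg (1 - z) : Real.Angle) + (π : ℝ) := by abel
  rw [e3, LobA_add_pi]
  ring

lemma BW_one_sub_inv (z : ℂ) : BW (1 - z)⁻¹ = BW z := by
  rw [BW_inv, BW_one_sub, neg_neg]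

lemma BW_one_sub_inv' (z : ℂ) : BW (1 - z⁻¹) = BW z := by
  rw [BW_one_sub, BW_inv, neg_neg]

lemma BW_conj (z : ℂ) : BW ((starRingEnd ℂ) z) = - BW z := by
  have ea : (arg ((starRingEnd ℂ) z) : Real.Angle) = - (arg z : Real.Angle) :=
    Complex.arg_conj_coe_angle z
  have eb : (arg (1 - (starRingEnd ℂ) z) : Real.Angle) = - (arg (1 - z) : Real.Angle) := by
    have : 1 - (starRingEnd ℂ) z = (starRingEnd ℂ) (1 - z) := by simp
    rw [this]; exact Complex.arg_conj_coe_angle _
  rw [BW_eq_LobA, BW_eq_LobA, ea, eb, LobA_neg, LobA_neg]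
  have e3 : -(arg (1 - z) : Real.Angle) - - (arg z : Real.Angle) =
      -((arg (1 - z) : Real.Angle) - (arg z : Real.Angle)) := by abel
  rw [e3, LobA_neg]
  ring

lemma BW_ofReal (x : ℝ) : BW (x : ℂ) = 0 := by
  have h := BW_conj (x : ℂ)
  rw [Complex.conj_ofReal] at h
  linarith

/-- the sum of the Lobachevsky functions of the angles of the triangle `0, 1, z` -/
lemma BW_eq_angles (z : ℂ) (h0 : z ≠ 0) (h1 : z ≠ 1) :
    BW z = Lob (arg z) + Lob (arg (1 - z)⁻¹) + Lob (arg (1 - z⁻¹)) := by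
  have h1' : 1 - z ≠ 0 := sub_ne_zero.2 (Ne.symm h1)
  have ea : (arg (1 - z)⁻¹ : Real.Angle) = - (arg (1 - z) : Real.Angle) :=
    Complex.arg_inv_coe_angle _
  have eb : (arg (1 - z⁻¹) : Real.Angle) = (arg (1 - z) : Real.Angle) - (arg z : Real.Angle) +
      (π : ℝ) := by
    have : 1 - z⁻¹ = -((1 - z) / z) := by field_simp; ring
    rw [this, arg_neg_angle (div_ne_zero h1' h0), Complex.arg_div_coe_angle h1' h0]
  rw [BW_eq_LobA, ← LobA_coe (arg z), ← LobA_coe (arg (1 - z)⁻¹), ← LobA_coe (arg (1 - z⁻¹)), ea, eb,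
    LobA_neg, LobA_add_pi]
  ring

/-! ### The derivative along a path -/

lemma arg_hasDerivAt {z : ℝ → ℂ} {z' : ℂ} {x : ℝ} (hz : HasDerivAt z z' x)
    (him : (z x).im ≠ 0) : HasDerivAt (fun t => arg (z t)) (z' / z x).im x := by
  have h := hz.clog_real (Complex.mem_slitPlane_iff.2 (Or.inr him))
  have h2 := Complex.imCLM.hasFDerivAt.comp_hasDerivAt x h
  have e : (⇑Complex.imCLM ∘ fun t => Complex.log (z t)) = fun t => arg (z t) := by
    funext t; exact Complex.log_im _
  rw [e] at h2
  simpa using h2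

lemma BW_hasDerivAt {z : ℝ → ℂ} {z' : ℂ} {x : ℝ} (hz : HasDerivAt z z' x)
    (him : (z x).im ≠ 0) : HasDerivAt (fun t => BW (z t))
      (Real.log ‖z x‖ * (-z' / (1 - z x)).im - Real.log ‖1 - z x‖ * (z' / z x).im) x := by
  have him1 : (1 - z x).im ≠ 0 := by simpa using him
  have hz0 : z x ≠ 0 := by intro h; rw [h] at him; simp at him
  have hz1 : 1 - z x ≠ 0 := by intro h; rw [h] at him1; simp at him1
  have n0 : 0 < ‖z x‖ := norm_pos_iff.2 hz0
  have n1 : 0 < ‖1 - z x‖ := norm_pos_iff.2 hz1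
  have ha := arg_hasDerivAt hz him
  have hb := arg_hasDerivAt (z := fun t => 1 - z t) (z' := -z') (hz.const_sub 1) him1
  have sa : Real.sin (arg (z x)) = (z x).im / ‖z x‖ := Complex.sin_arg _
  have sb : Real.sin (arg (1 - z x)) = -(z x).im / ‖1 - z x‖ := by
    rw [Complex.sin_arg]; simp
  have sc : Real.sin (arg (1 - z x) - arg (z x)) = -(z x).im / (‖1 - z x‖ * ‖z x‖) := by
    rw [Real.sin_sub, sa, sb, Complex.cos_arg hz0, Complex.cos_arg hz1]
    simp only [Complex.sub_re, Complex.one_re]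
    field_simp
    ring
  have sa0 : Real.sin (arg (z x)) ≠ 0 := by rw [sa]; positivity
  have sb0 : Real.sin (arg (1 - z x)) ≠ 0 := by
    rw [sb]; exact div_ne_zero (neg_ne_zero.2 him) n1.ne'
  have sc0 : Real.sin (arg (1 - z x) - arg (z x)) ≠ 0 := by
    rw [sc]; exact div_ne_zero (neg_ne_zero.2 him) (by positivity)
  have habs : 0 < |(z x).im| := abs_pos.2 him
  have la : Real.log |2 * Real.sin (arg (z x))| = Real.log (2 * |(z x).im|) - Real.log ‖z x‖ := by
    rw [sa, ← Real.log_div (by positivity) n0.ne', abs_mul, abs_div, abs_of_pos n0,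
      abs_of_pos (by norm_num : (0:ℝ) < 2)]
    congr 1; ring
  have lb : Real.log |2 * Real.sin (arg (1 - z x))| =
      Real.log (2 * |(z x).im|) - Real.log ‖1 - z x‖ := by
    rw [sb, ← Real.log_div (by positivity) n1.ne', abs_mul, abs_div, abs_of_pos n1,
      abs_of_pos (by norm_num : (0:ℝ) < 2), abs_neg]
    congr 1; ring
  have lc : Real.log |2 * Real.sin (arg (1 - z x) - arg (z x))| =
      Real.log (2 * |(z x).im|) - Real.log ‖1 - z x‖ - Real.log ‖z x‖ := by
    rw [sc, ← Real.log_div (by positivity) n1.ne', ← Real.log_div (by positivity) n0.ne', abs_mul,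
      abs_div, abs_of_pos (by positivity : 0 < ‖1 - z x‖ * ‖z x‖),
      abs_of_pos (by norm_num : (0:ℝ) < 2), abs_neg]
    congr 1; field_simp
  have d1 := (Lob_hasDerivAt sa0).comp x ha
  have d2 := (Lob_hasDerivAt sb0).comp x hb
  have d3 := (Lob_hasDerivAt sc0).comp x (hb.sub ha)
  have d := (d1.sub d2).add d3
  refine (d.congr_deriv ?_)
  rw [la, lb, lc]
  ring

end Pool.Agent.Helper5.TB
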