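import Pool.Agent.Helper5.TB.SaddleEq

/-!
# The shapes lie in the upper half plane
-/

set_option autoImplicit false

namespace Pool.Agent.Helper5.TB

open Real Complex
open Pool.Agent.Helper9.TB (Lob ee ll win KK kap x0 WW Saddle)

/-! ### comparison of `sin` and `sinh` -/

lemma sinh_convex : ConvexOn ℝ (Set.Ici (0 : ℝ)) Real.sinh := by
  apply convexOn_of_deriv2_nonneg (convex_Ici 0) Real.continuous_sinh.continuousOn
    Real.differentiable_sinh.differentiableOn
  · rw [Real.deriv_sinh]; exact Real.differentiable_cosh.differentiableOn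
  · intro x hx
    rw [interior_Ici] at hx
    have : deriv^[2] Real.sinh x = Real.sinh x := by
      simp [Real.deriv_sinh, Real.deriv_cosh]
    rw [this]
    exact (Real.sinh_pos_iff.2 hx).le

lemma sinh_mul_le {t x : ℝ} (h0 : 0 ≤ t) (h1 : t ≤ 1) (hx : 0 ≤ x) :
    Real.sinh (t * x) ≤ t * Real.sinh x := by
  have := sinh_convex.2 (x := x) (y := 0) hx (Set.self_mem_Ici) h0 (by linarith : 0 ≤ 1 - t)
    (by ring)
  simpa using this

lemma sin_mul_lt {t x : ℝ} (h0 : 0 < t) (h1 : t < 1) (hx : 0 < x) (hx2 : x ≤ π) :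
    t * Real.sin x < Real.sin (t * x) := by
  have := strictConcaveOn_sin_Icc.2 (x := x) (y := 0) ⟨hx.le, hx2⟩ ⟨le_rfl, Real.pi_pos.le⟩
    hx.ne' h0 (by linarith : 0 < 1 - t) (by ring)
  simpa using this

/-- `sin (mα) sinh (nβ) > sin (nα) sinh (mβ)` -/
lemma sin_sinh {m n α β : ℝ} (hm : 0 < m) (hmn : m < n) (hα : 0 < α) (hβ : 0 < β)
    (h1 : m * α < π) (h2 : n * α < 2 * π) :
    Real.sin (n * α) * Real.sinh (m * β) < Real.sin (m * α) * Real.sinh (n * β) := by
  have hn : 0 < n := hm.trans hmn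
  have s1 : 0 < Real.sin (m * α) := Real.sin_pos_of_pos_of_lt_pi (by positivity) h1
  have s2 : 0 < Real.sinh (m * β) := Real.sinh_pos_iff.2 (by positivity)
  have s3 : 0 < Real.sinh (n * β) := Real.sinh_pos_iff.2 (by positivity)
  rcases le_or_gt (n * α) π with hc | hc
  · have t0 : 0 < m / n := by positivity
    have t1 : m / n < 1 := by rw [div_lt_one hn]; exact hmn
    have e1 := sin_mul_lt t0 t1 (by positivity : 0 < n * α) hc
    have e2 := sinh_mul_le t0.le t1.le (by positivity : 0 ≤ n * β)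
    rw [show m / n * (n * α) = m * α by field_simp] at e1
    rw [show m / n * (n * β) = m * β by field_simp] at e2
    have s4 : 0 ≤ Real.sin (n * α) := Real.sin_nonneg_of_nonneg_of_le_pi (by positivity) hc
    calc Real.sin (n * α) * Real.sinh (m * β) ≤ Real.sin (n * α) * (m / n * Real.sinh (n * β)) :=
          mul_le_mul_of_nonneg_left e2 s4
      _ = (m / n * Real.sin (n * α)) * Real.sinh (n * β) := by ring
      _ < Real.sin (m * α) * Real.sinh (n * β) := mul_lt_mul_of_pos_right e1 s3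
  · have s4 : Real.sin (n * α) ≤ 0 := by
      have : Real.sin (n * α) = - Real.sin (n * α - π) := by rw [Real.sin_sub_pi]; ring
      rw [this]
      have := Real.sin_nonneg_of_nonneg_of_le_pi (by linarith : 0 ≤ n * α - π) (by linarith)
      linarith
    have := mul_pos s1 s3
    nlinarith only [s4, s2, this]

variable {r : ℕ} {h ξ : ℝ}

lemma csin_re (a b : ℝ) : (Complex.sin ((a : ℂ) + (b : ℂ) * I)).re = Real.sin a * Real.cosh b := by
  rw [Complex.sin_add_mul_I, ← Complex.ofReal_sin, ← Complex.ofReal_cosh, ← Complex.ofReal_cos,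
    ← Complex.ofReal_sinh]
  simp only [Complex.add_re, Complex.mul_re, Complex.mul_im, Complex.ofReal_re,
    Complex.ofReal_im, Complex.I_re, Complex.I_im]
  ring

lemma csin_im (a b : ℝ) : (Complex.sin ((a : ℂ) + (b : ℂ) * I)).im = Real.cos a * Real.sinh b := by
  rw [Complex.sin_add_mul_I, ← Complex.ofReal_sin, ← Complex.ofReal_cosh, ← Complex.ofReal_cos,
    ← Complex.ofReal_sinh]
  simp only [Complex.add_im, Complex.mul_re, Complex.mul_im, Complex.ofReal_re,
    Complex.ofReal_im, Complex.I_re, Complex.I_im]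
  ring

lemma ccos_re (a b : ℝ) : (Complex.cos ((a : ℂ) + (b : ℂ) * I)).re = Real.cos a * Real.cosh b := by
  rw [Complex.cos_add_mul_I, ← Complex.ofReal_sin, ← Complex.ofReal_cosh, ← Complex.ofReal_cos,
    ← Complex.ofReal_sinh]
  simp only [Complex.sub_re, Complex.mul_re, Complex.mul_im, Complex.ofReal_re,
    Complex.ofReal_im, Complex.I_re, Complex.I_im]
  ring

lemma ccos_im (a b : ℝ) :
    (Complex.cos ((a : ℂ) + (b : ℂ) * I)).im = -(Real.sin a * Real.sinh b) := by
  rw [Complex.cos_add_mul_I, ← Complex.ofReal_sin, ← Complex.ofReal_cosh, ← Complex.ofReal_cos,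
    ← Complex.ofReal_sinh]
  simp only [Complex.sub_im, Complex.mul_re, Complex.mul_im, Complex.ofReal_re,
    Complex.ofReal_im, Complex.I_re, Complex.I_im]
  ring

lemma sj_re (h ξ : ℝ) (j : ℕ) :
    (sj h ξ j).re = Real.sin (j * (π * ξ)) * Real.cosh (j * (π * h)) := by
  unfold sj
  have : (j : ℂ) * (π * (ξ - h * I)) = ((j * (π * ξ) : ℝ) : ℂ) + ((-(j * (π * h)) : ℝ) : ℂ) * I := by
    push_cast; ring
  rw [this, csin_re, Real.cosh_neg]

lemma sj_im (h ξ : ℝ) (j : ℕ) :
    (sj h ξ j).im = -(Real.cos (j * (π * ξ)) * Real.sinh (j * (π * h))) := by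
  unfold sj
  have : (j : ℂ) * (π * (ξ - h * I)) = ((j * (π * ξ) : ℝ) : ℂ) + ((-(j * (π * h)) : ℝ) : ℂ) * I := by
    push_cast; ring
  rw [this, csin_im, Real.sinh_neg, mul_neg]

/-- the arguments of the `s_j` increase -/
lemma im_pos (hh : 0 < h) (hx : 0 < ξ) {j k : ℕ} (hj : 1 ≤ j) (hjk : j < k) (hk : k * ξ < 1) :
    0 < (sj h ξ k * (starRingEnd ℂ) (sj h ξ j)).im := by
  have hpi := Real.pi_pos
  rw [Complex.mul_im, Complex.conj_re, Complex.conj_im, sj_re, sj_im, sj_re, sj_im]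
  have hj' : (0 : ℝ) < j := by exact_mod_cast hj
  have hjk' : (j : ℝ) < k := by exact_mod_cast hjk
  have hjx : 0 < (j : ℝ) * ξ := by positivity
  have hjx2 : (j : ℝ) * ξ < k * ξ := mul_lt_mul_of_pos_right hjk' hx
  have key := sin_sinh (m := (k : ℝ) - j) (n := (k : ℝ) + j) (α := π * ξ) (β := π * h)
    (by linarith) (by linarith) (by positivity) (by positivity)
    (by
      have e : ((k : ℝ) - j) * (π * ξ) = π * (k * ξ - j * ξ) := by ring
      rw [e]
      calc π * (k * ξ - j * ξ) < π * 1 := mul_lt_mul_of_pos_left (by linarith) hpi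
        _ = π := mul_one π)
    (by
      have e : ((k : ℝ) + j) * (π * ξ) = π * (k * ξ + j * ξ) := by ring
      rw [e]
      calc π * (k * ξ + j * ξ) < π * 2 := mul_lt_mul_of_pos_left (by linarith) hpi
        _ = 2 * π := by ring)
  rw [sub_mul, add_mul, sub_mul, add_mul, Real.sin_add, Real.sin_sub, Real.sinh_add,
    Real.sinh_sub] at key
  set a := (k : ℝ) * (π * ξ)
  set b := (j : ℝ) * (π * ξ)
  set c := (k : ℝ) * (π * h)
  set d := (j : ℝ) * (π * h)
  nlinarith only [key]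

/-- at the hinge: `(s_r / s_1)² = -(conj X / X)²`, `X = 2 cos π y` -/
lemma uj_r_eq (hr : 4 ≤ r) (H : Saddle r (1 / r) h ξ) :
    uj h ξ r * (lj h ξ + (lj h ξ)⁻¹) ^ 2 = -((starRingEnd ℂ) (lj h ξ + (lj h ξ)⁻¹)) ^ 2 := by
  have B := basic hr H
  have n1 := norm_sj_hinge hr H
  have n2 := norm_sj_r hr H
  obtain ⟨m, rfl⟩ : ∃ m, r = m + 1 := ⟨r - 1, by omega⟩
  rw [Nat.add_sub_cancel] at n1
  have h1 := sj_rec h ξ m
  have h2 := sj_mul h ξ m
  have ha := sj_ne B.hh ξ (j := m) (by omega)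
  have hb := sj_ne B.hh ξ (j := m + 1) (by omega)
  have hc := sj_ne B.hh ξ (j := m + 1 + 1) (by omega)
  have hs := sj_ne B.hh ξ (j := 1) (by omega)
  have hX := lj_add_ne B.hh ξ
  unfold uj
  rw [show m + 2 = m + 1 + 1 from rfl] at h1 h2
  set a := sj h ξ m
  set b := sj h ξ (m + 1)
  set c := sj h ξ (m + 1 + 1)
  set s := sj h ξ 1
  set X := lj h ξ + (lj h ξ)⁻¹
  -- unimodular quotients
  have u1 : (starRingEnd ℂ) a * a = (starRingEnd ℂ) c * c := by
    rw [mul_comm, Complex.mul_conj, mul_comm, Complex.mul_conj, Complex.normSq_eq_norm_sq,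
      Complex.normSq_eq_norm_sq, n1]
  have u2 : (starRingEnd ℂ) b * b = (starRingEnd ℂ) s * s := by
    rw [mul_comm, Complex.mul_conj, mul_comm, Complex.mul_conj, Complex.normSq_eq_norm_sq,
      Complex.normSq_eq_norm_sq, n2]
  have h1c := congrArg (starRingEnd ℂ) h1
  have h2c := congrArg (starRingEnd ℂ) h2
  rw [map_add, map_mul] at h1c
  rw [map_mul, map_sub, map_pow, map_pow] at h2c
  have ca : (starRingEnd ℂ) a ≠ 0 := (map_ne_zero _).2 ha
  have cb : (starRingEnd ℂ) b ≠ 0 := (map_ne_zero _).2 hb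
  have cc : (starRingEnd ℂ) c ≠ 0 := (map_ne_zero _).2 hc
  have cs : (starRingEnd ℂ) s ≠ 0 := (map_ne_zero _).2 hs
  have cX : (starRingEnd ℂ) X ≠ 0 := (map_ne_zero _).2 hX
  set a' := (starRingEnd ℂ) a
  set b' := (starRingEnd ℂ) b
  set c' := (starRingEnd ℂ) c
  set s' := (starRingEnd ℂ) s
  set X' := (starRingEnd ℂ) X
  -- (a + c)² / (ac) is real
  have e1 : (c + a) ^ 2 * (a' * c') = (c' + a') ^ 2 * (a * c) := by
    have : a' = c' * c / a := by rw [eq_div_iff ha]; exact u1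
    rw [this]
    field_simp
    ring
  have e2 : (X * b) ^ 2 * (b' ^ 2 - s' ^ 2) = (X' * b') ^ 2 * (b ^ 2 - s ^ 2) := by
    rw [← h1, ← h2, ← h1c, ← h2c]; linear_combination e1
  have e3 : b' = s' * s / b := by rw [eq_div_iff hb]; exact u2
  rw [e3] at e2
  have hbs : b ^ 2 - s ^ 2 ≠ 0 := by rw [← h2]; exact mul_ne_zero ha hc
  have e4 : X ^ 2 * b ^ 2 = - (X' ^ 2 * s ^ 2) := by
    apply mul_right_cancel₀ hbs
    field_simp at e2
    linear_combination -e2
  rw [div_pow]
  field_simp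
  linear_combination e4

lemma uj_r_im_pos (hr : 4 ≤ r) (H : Saddle r (1 / r) h ξ) : 0 < (uj h ξ r).im := by
  have B := basic hr H
  have e := uj_r_eq hr H
  have hX := lj_add_ne B.hh ξ
  have hpi := Real.pi_pos
  have hre : (lj h ξ + (lj h ξ)⁻¹).re = 2 * (Real.cos (π * ξ) * Real.cosh (π * h)) := by
    rw [lj_add]
    have : (π * (ξ - h * I) : ℂ) = ((π * ξ : ℝ) : ℂ) + ((-(π * h) : ℝ) : ℂ) * I := by
      push_cast; ring
    rw [this, show (2 : ℂ) = ((2 : ℝ) : ℂ) by norm_num, Complex.re_ofReal_mul, ccos_re,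
      Real.cosh_neg]
  have him : (lj h ξ + (lj h ξ)⁻¹).im = 2 * (Real.sin (π * ξ) * Real.sinh (π * h)) := by
    rw [lj_add]
    have : (π * (ξ - h * I) : ℂ) = ((π * ξ : ℝ) : ℂ) + ((-(π * h) : ℝ) : ℂ) * I := by
      push_cast; ring
    rw [this, show (2 : ℂ) = ((2 : ℝ) : ℂ) by norm_num, Complex.im_ofReal_mul, ccos_im,
      Real.sinh_neg]
    ring
  set X := lj h ξ + (lj h ξ)⁻¹
  have hxi : π * ξ < π / 4 := by nlinarith only [B.xlt, B, hpi]
  have hxi0 : 0 < π * ξ := by have := B.xpos; positivity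
  have s1 : 0 < Real.sin (π * ξ) := Real.sin_pos_of_pos_of_lt_pi hxi0 (by linarith)
  have s2 : 0 < Real.sinh (π * h) := Real.sinh_pos_iff.2 (by have := B.hh; positivity)
  have c2 : Real.sinh (π * h) < Real.cosh (π * h) := Real.sinh_lt_cosh _
  have c1 : Real.sin (π * ξ) < Real.cos (π * ξ) := by
    have h1 := Real.strictMonoOn_sin (a := π * ξ) (b := π / 4)
      ⟨by linarith, by linarith⟩ ⟨by linarith, by linarith⟩ hxi
    have h2 := Real.strictAntiOn_cos (a := π * ξ) (b := π / 4)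
      ⟨by linarith, by linarith⟩ ⟨by linarith, by linarith⟩ hxi
    rw [Real.sin_pi_div_four] at h1
    rw [Real.cos_pi_div_four] at h2
    linarith
  have p1 : 0 < X.im := by rw [him]; positivity
  have p2 : X.im < X.re := by
    rw [him, hre]
    have := mul_lt_mul'' c1 c2 s1.le s2.le
    linarith
  have hx0 : X ^ 2 ≠ 0 := pow_ne_zero 2 hX
  have hu : uj h ξ r = -((starRingEnd ℂ) X) ^ 2 / X ^ 2 := by
    rw [eq_div_iff hx0]; exact e
  rw [hu, Complex.div_im, ← sub_div]
  apply div_pos _ (Complex.normSq_pos.2 hx0)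
  simp only [pow_two, Complex.neg_im, Complex.neg_re, Complex.mul_im, Complex.mul_re,
    Complex.conj_re, Complex.conj_im]
  have : 0 < X.im * X.re * ((X.re - X.im) * (X.re + X.im)) := by
    have : 0 < X.re := p1.trans p2
    have : 0 < X.re - X.im := by linarith
    positivity
  nlinarith only [this]

/-- **The shapes lie in the upper half plane.** -/
theorem uj_im_pos (hr : 4 ≤ r) (H : Saddle r (1 / r) h ξ) {j : ℕ} (h2 : 2 ≤ j) (hj : j ≤ r) :
    0 < (uj h ξ j).im := by
  have B := basic hr H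
  have hr4 : (4 : ℝ) ≤ r := by exact_mod_cast hr
  have hrx : (r : ℝ) * ξ < 1 := by
    have h1 := H.xlt
    have h3 : (r : ℝ) * ξ < r * (1 / r) := mul_lt_mul_of_pos_left h1 (by linarith)
    rwa [mul_one_div_cancel (by linarith : (r : ℝ) ≠ 0)] at h3
  rcases Nat.lt_or_eq_of_le hj with hj' | hj'
  · have hs := sj_ne B.hh ξ (j := 1) (by omega)
    have hjx : (j : ℝ) * ξ < 1 := by
      have : (j : ℝ) ≤ r := by exact_mod_cast hj
      have := mul_le_mul_of_nonneg_right this B.xpos.le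
      linarith
    have i1 := im_pos B.hh B.xpos (j := 1) (k := j) le_rfl (by omega) hjx
    have i2 := im_pos B.hh B.xpos (j := 1) (k := r) le_rfl (by omega) hrx
    have i3 := im_pos B.hh B.xpos (j := j) (k := r) (by omega) hj' hrx
    have i4 := uj_r_im_pos hr H
    have hform : ∀ k, (uj h ξ k).im = 2 * (sj h ξ k * (starRingEnd ℂ) (sj h ξ 1)).re *
        (sj h ξ k * (starRingEnd ℂ) (sj h ξ 1)).im / Complex.normSq (sj h ξ 1) ^ 2 := by
      intro k
      have : uj h ξ k = (sj h ξ k * (starRingEnd ℂ) (sj h ξ 1)) ^ 2 /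
          ((Complex.normSq (sj h ξ 1) ^ 2 : ℝ) : ℂ) := by
        unfold uj
        rw [Complex.ofReal_pow, ← Complex.mul_conj, ← div_pow]
        have hs' : (starRingEnd ℂ) (sj h ξ 1) ≠ 0 := (map_ne_zero _).2 hs
        field_simp
      rw [this, Complex.div_ofReal_im, pow_two, Complex.mul_im]
      ring
    have hn : 0 < Complex.normSq (sj h ξ 1) ^ 2 := pow_pos (Complex.normSq_pos.2 hs) 2
    rw [hform] at i4 ⊢
    have i5 : 0 < (sj h ξ r * (starRingEnd ℂ) (sj h ξ 1)).re := by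
      have h6 := (div_pos_iff_of_pos_right hn).1 i4
      have h7 := (pos_iff_pos_of_mul_pos h6).2 i2
      linarith
    apply div_pos _ hn
    apply mul_pos _ i1
    apply mul_pos two_pos
    by_contra hneg
    push Not at hneg
    -- the argument of s_j / s_1 is too large
    have h8 : (sj h ξ r * (starRingEnd ℂ) (sj h ξ j)).im * Complex.normSq (sj h ξ 1) =
        (sj h ξ r * (starRingEnd ℂ) (sj h ξ 1)).im * (sj h ξ j * (starRingEnd ℂ) (sj h ξ 1)).re -
        (sj h ξ r * (starRingEnd ℂ) (sj h ξ 1)).re * (sj h ξ j * (starRingEnd ℂ) (sj h ξ 1)).im := by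
      simp only [Complex.mul_im, Complex.mul_re, Complex.conj_re, Complex.conj_im,
        Complex.normSq_apply]
      ring
    have h9 : 0 < (sj h ξ r * (starRingEnd ℂ) (sj h ξ j)).im * Complex.normSq (sj h ξ 1) :=
      mul_pos i3 (Complex.normSq_pos.2 hs)
    rw [h8] at h9
    nlinarith only [mul_pos i5 i1, mul_nonneg i2.le (neg_nonneg.2 hneg), hneg, i2, i1, i5, h9]
  · rw [hj']; exact uj_r_im_pos hr H

end Pool.Agent.Helper5.TB
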