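import Pool.Agent.Helper5.TB.Ladder
import Pool.Agent.Helper9.TB.RDefs

/-!
# The critical value as a combination of dilogarithms
-/

set_option autoImplicit false

namespace Pool.Agent.Helper5.TB

open Real Complex Filter Topology MeasureTheory Set
open Pool.Agent.Helper9.TB (Lob ee ll win KK kap x0 WW Saddle)

/-- `-exp (-2 π (h + i u))` -/
noncomputable def ZZ (h u : ℝ) : ℂ :=
  -Complex.exp ((-(2 * π * h) : ℝ) + ((-(2 * π * u) : ℝ) : ℂ) * I)

lemma ZZ_re (h u : ℝ) : (ZZ h u).re = -(Real.exp (-(2 * π * h)) * Real.cos (2 * π * u)) := by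
  unfold ZZ
  rw [Complex.neg_re, Complex.exp_re]
  simp

lemma ZZ_im (h u : ℝ) : (ZZ h u).im = Real.exp (-(2 * π * h)) * Real.sin (2 * π * u) := by
  unfold ZZ
  rw [Complex.neg_im, Complex.exp_im]
  simp

lemma ZZ_norm (h u : ℝ) : ‖ZZ h u‖ = Real.exp (-(2 * π * h)) := by
  unfold ZZ
  rw [norm_neg, Complex.norm_exp]
  simp

lemma ZZ_hasDerivAt (h u : ℝ) : HasDerivAt (ZZ h) (-(2 * π) * I * ZZ h u) u := by
  have h1 : HasDerivAt (fun u : ℝ => ((-(2 * π * h) : ℝ) : ℂ) + ((-(2 * π * u) : ℝ) : ℂ) * I)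
      (-(2 * π) * I) u := by
    have h2 : HasDerivAt (fun u : ℝ => ((-(2 * π * u) : ℝ) : ℂ)) (-(2 * π) : ℂ) u := by
      have := (((hasDerivAt_id u).const_mul (2 * π)).neg).ofReal_comp
      simpa using this
    exact (h2.mul_const I).const_add _
  have h3 := h1.cexp.neg
  refine h3.congr_deriv ?_
  unfold ZZ
  ring

lemma ZZ_continuous (h : ℝ) : Continuous (ZZ h) := by
  unfold ZZ; fun_prop

lemma ZZ_norm_lt {h : ℝ} (hh : 0 < h) (u : ℝ) : ‖ZZ h u‖ < 1 := by
  rw [ZZ_norm, Real.exp_lt_one_iff]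
  have := Real.pi_pos
  have : 0 < 2 * π * h := by positivity
  linarith

lemma one_sub_ZZ_re_pos {h : ℝ} (hh : 0 < h) (u : ℝ) : 0 < (1 - ZZ h u).re := by
  have h1 := ZZ_norm_lt hh u
  have h2 := Complex.re_le_norm (ZZ h u)
  simp only [Complex.sub_re, Complex.one_re]
  linarith

lemma one_sub_ZZ_ne {h : ℝ} (hh : 0 < h) (u : ℝ) : 1 - ZZ h u ≠ 0 := by
  intro h0
  have := one_sub_ZZ_re_pos hh u
  rw [h0] at this
  simp at this

lemma cosh_add_cos_pos {h : ℝ} (hh : 0 < h) (u : ℝ) :
    0 < Real.cosh (2 * π * h) + Real.cos (2 * π * u) := by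
  have hp := Real.pi_pos
  have h1 : 1 < Real.cosh (2 * π * h) := Real.one_lt_cosh.2 (by positivity)
  have h2 := Real.neg_one_le_cos (2 * π * u)
  linarith

lemma normSq_one_sub_ZZ (h u : ℝ) : Complex.normSq (1 - ZZ h u) =
    2 * Real.exp (-(2 * π * h)) * (Real.cosh (2 * π * h) + Real.cos (2 * π * u)) := by
  rw [Complex.normSq_apply]
  simp only [Complex.sub_re, Complex.one_re, Complex.sub_im, Complex.one_im, ZZ_re, ZZ_im]
  have e1 : Real.exp (-(2 * π * h)) * Real.exp (2 * π * h) = 1 := by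
    rw [← Real.exp_add]; simp
  have e2 := Real.sin_sq_add_cos_sq (2 * π * u)
  rw [Real.cosh_eq]
  linear_combination (-1 : ℝ) * e1 + Real.exp (-(2 * π * h)) ^ 2 * e2

lemma log_norm_one_sub_ZZ {h : ℝ} (hh : 0 < h) (u : ℝ) :
    Real.log ‖1 - ZZ h u‖ = ee h u - π * h := by
  have h1 := cosh_add_cos_pos hh u
  have h2 : ‖1 - ZZ h u‖ ^ 2 =
      Real.exp (-(2 * π * h)) * (2 * (Real.cosh (2 * π * h) + Real.cos (2 * π * u))) := by
    rw [← Complex.normSq_eq_norm_sq, normSq_one_sub_ZZ]; ring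
  have h3 := congrArg Real.log h2
  rw [Real.log_pow, Real.log_mul (Real.exp_pos _).ne' (by positivity), Real.log_exp] at h3
  unfold ee
  push_cast at h3
  linarith

lemma arg_one_sub_ZZ_hasDerivAt {h : ℝ} (hh : 0 < h) (u : ℝ) :
    HasDerivAt (fun u => arg (1 - ZZ h u))
      (π * Real.sinh (2 * π * h) / (Real.cosh (2 * π * h) + Real.cos (2 * π * u)) - π) u := by
  have h0 := one_sub_ZZ_ne hh u
  have hs : 1 - ZZ h u ∈ Complex.slitPlane := Complex.mem_slitPlane_iff.2 (Or.inl (one_sub_ZZ_re_pos hh u))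
  have h1 := ((ZZ_hasDerivAt h u).const_sub 1).clog_real hs
  have h2 := Complex.imCLM.hasFDerivAt.comp_hasDerivAt u h1
  have e : (⇑Complex.imCLM ∘ fun t => Complex.log (1 - ZZ h t)) = fun t => arg (1 - ZZ h t) := by
    funext t; exact Complex.log_im _
  rw [e] at h2
  refine h2.congr_deriv ?_
  rw [Complex.imCLM_apply, Complex.div_im, normSq_one_sub_ZZ]
  have h3 := cosh_add_cos_pos hh u
  have e1 : Real.exp (-(2 * π * h)) * Real.exp (2 * π * h) = 1 := by
    rw [← Real.exp_add]; simp
  have e2 := Real.sin_sq_add_cos_sq (2 * π * u)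
  have hE := Real.exp_pos (-(2 * π * h))
  simp only [Complex.neg_im, Complex.neg_re, Complex.mul_im, Complex.mul_re, Complex.I_re,
    Complex.I_im, Complex.sub_re, Complex.one_re, Complex.sub_im, Complex.one_im, ZZ_re, ZZ_im,
    Complex.ofReal_re, Complex.ofReal_im, Complex.re_ofNat, Complex.im_ofNat]
  have e3 : Real.sinh (2 * π * h) = Real.cosh (2 * π * h) - Real.exp (-(2 * π * h)) := by
    rw [Real.sinh_eq, Real.cosh_eq]; ring
  rw [e3]
  field_simp
  ring_nf
  have e2' : Real.sin (2 * π * u) ^ 2 = 1 - Real.cos (2 * π * u) ^ 2 := by linarith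
  rw [show π * u * 2 = 2 * π * u by ring, e2']
  ring

lemma integral_arg {h : ℝ} (hh : 0 < h) {a b : ℝ} (hab : a ≤ b) :
    ∫ u in a..b, π * Real.sinh (2 * π * h) / (Real.cosh (2 * π * h) + Real.cos (2 * π * u)) =
      arg (1 - ZZ h b) - arg (1 - ZZ h a) + π * (b - a) := by
  have hd : ∀ u ∈ Set.uIcc a b, HasDerivAt (fun u => arg (1 - ZZ h u) + π * u)
      (π * Real.sinh (2 * π * h) / (Real.cosh (2 * π * h) + Real.cos (2 * π * u))) u := by
    intro u _
    refine ((arg_one_sub_ZZ_hasDerivAt hh u).add ((hasDerivAt_id u).const_mul π)).congr_deriv ?_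
    simp
  have hc : Continuous fun u =>
      π * Real.sinh (2 * π * h) / (Real.cosh (2 * π * h) + Real.cos (2 * π * u)) :=
    Continuous.div (by fun_prop) (by fun_prop) (fun u => (cosh_add_cos_pos hh u).ne')
  rw [intervalIntegral.integral_eq_sub_of_hasDerivAt hd (hc.intervalIntegrable a b)]
  ring

lemma ee_continuous {h : ℝ} (hh : 0 < h) : Continuous (ee h) := by
  unfold ee
  apply Continuous.div_const
  apply Continuous.log
  · fun_prop
  · intro u
    have := cosh_add_cos_pos hh u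
    positivity

lemma integral_ee {h : ℝ} (hh : 0 < h) {a b : ℝ} (hab : a ≤ b) :
    ∫ u in a..b, 2 * π * (ee h u - π * h) =
      (BW (ZZ h b) + 2 * π * h * arg (1 - ZZ h b)) - (BW (ZZ h a) + 2 * π * h * arg (1 - ZZ h a)) := by
  have hcount : {u : ℝ | Real.sin (2 * π * u) = 0}.Countable := by
    apply Set.Countable.mono _ (Set.countable_range (fun n : ℤ => (n : ℝ) / 2))
    intro u hu
    rw [Set.mem_ofPred_eq, Real.sin_eq_zero_iff] at hu
    obtain ⟨n, hn⟩ := hu
    refine ⟨n, ?_⟩
    have := Real.pi_pos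
    have h2 : (n : ℝ) * π = 2 * u * π := by rw [hn]; ring
    have h3 := mul_right_cancel₀ this.ne' h2
    simp only
    linarith
  have hcont : ContinuousOn (fun u => BW (ZZ h u) + 2 * π * h * arg (1 - ZZ h u)) (Set.Icc a b) := by
    apply Continuous.continuousOn
    refine (BW_continuous.comp (ZZ_continuous h)).add (continuous_const.mul ?_)
    rw [continuous_iff_continuousAt]
    exact fun u => (arg_one_sub_ZZ_hasDerivAt hh u).continuousAt
  refine integral_eq_of_hasDerivAt_off_countable_of_le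
    (fun u => BW (ZZ h u) + 2 * π * h * arg (1 - ZZ h u)) _ hab hcount hcont ?_ ?_
  · intro u hu
    have hs : Real.sin (2 * π * u) ≠ 0 := fun hs => hu.2 hs
    have him : (ZZ h u).im ≠ 0 := by
      rw [ZZ_im]; exact mul_ne_zero (Real.exp_pos _).ne' hs
    have z0 : ZZ h u ≠ 0 := by intro h0; rw [h0] at him; simp at him
    have b := BW_hasDerivAt (ZZ_hasDerivAt h u) him
    have hs' : 1 - ZZ h u ∈ Complex.slitPlane :=
      Complex.mem_slitPlane_iff.2 (Or.inl (one_sub_ZZ_re_pos hh u))
    have h1 := ((ZZ_hasDerivAt h u).const_sub 1).clog_real hs'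
    have h2 := Complex.imCLM.hasFDerivAt.comp_hasDerivAt u h1
    have e : (⇑Complex.imCLM ∘ fun t => Complex.log (1 - ZZ h t)) = fun t => arg (1 - ZZ h t) := by
      funext t; exact Complex.log_im _
    rw [e] at h2
    refine (b.add (h2.const_mul (2 * π * h))).congr_deriv ?_
    rw [ZZ_norm, Real.log_exp, log_norm_one_sub_ZZ hh]
    have e1 : (-(2 * π) * I * ZZ h u / ZZ h u).im = -(2 * π) := by
      rw [mul_div_assoc, div_self z0, mul_one]
      simp
    rw [e1, Complex.imCLM_apply]
    ring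
  · apply Continuous.intervalIntegrable
    have := ee_continuous hh
    fun_prop

lemma BW_circle {τ : ℝ} (h0 : 0 ≤ τ) (h1 : τ ≤ 1 / 2) :
    BW (Complex.exp ((2 * π * τ : ℝ) * I)) = -(2 * π * ll τ) := by
  have hpi := Real.pi_pos
  have hcont : ContinuousOn (fun x : ℝ => BW (Complex.exp ((2 * π * x : ℝ) * I))) (Set.Icc 0 τ) := by
    apply Continuous.continuousOn
    apply BW_continuous.comp
    fun_prop
  have key := integral_eq_of_hasDerivAt_off_countable_of_le
    (fun x : ℝ => BW (Complex.exp ((2 * π * x : ℝ) * I)))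
    (fun x => -(2 * π) * Real.log (2 * Real.sin (π * x))) h0 Set.countable_empty hcont ?_ ?_
  · rw [intervalIntegral.integral_const_mul] at key
    simp only [mul_zero, Complex.ofReal_zero, zero_mul, Complex.exp_zero, BW_one, sub_zero] at key
    rw [← key]
    unfold ll
    ring
  · intro x hx
    obtain ⟨⟨x0, x1⟩, -⟩ := hx
    have hder : HasDerivAt (fun x : ℝ => Complex.exp ((2 * π * x : ℝ) * I))
        (2 * π * I * Complex.exp ((2 * π * x : ℝ) * I)) x := by
      have h2 : HasDerivAt (fun u : ℝ => ((2 * π * u : ℝ) : ℂ)) (2 * π : ℂ) x := by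
        have := (((hasDerivAt_id x).const_mul (2 * π))).ofReal_comp
        simpa using this
      refine ((h2.mul_const I).cexp).congr_deriv ?_
      ring
    have hre : (Complex.exp ((2 * π * x : ℝ) * I)).re = Real.cos (2 * π * x) :=
      Complex.exp_ofReal_mul_I_re _
    have him : (Complex.exp ((2 * π * x : ℝ) * I)).im = Real.sin (2 * π * x) :=
      Complex.exp_ofReal_mul_I_im _
    have hs : 0 < Real.sin (2 * π * x) := by
      apply Real.sin_pos_of_pos_of_lt_pi
      · positivity
      · nlinarith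
    have hs2 : 0 < Real.sin (π * x) := by
      apply Real.sin_pos_of_pos_of_lt_pi
      · positivity
      · nlinarith
    have b := BW_hasDerivAt hder (by rw [him]; exact hs.ne')
    refine b.congr_deriv ?_
    have hn : ‖1 - Complex.exp ((2 * π * x : ℝ) * I)‖ = 2 * Real.sin (π * x) := by
      have : ‖1 - Complex.exp ((2 * π * x : ℝ) * I)‖ ^ 2 = (2 * Real.sin (π * x)) ^ 2 := by
        rw [← Complex.normSq_eq_norm_sq, Complex.normSq_apply]
        simp only [Complex.sub_re, Complex.one_re, Complex.sub_im, Complex.one_im, hre, him]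
        have e1 : Real.cos (2 * π * x) = 1 - 2 * Real.sin (π * x) ^ 2 := by
          rw [show 2 * π * x = 2 * (π * x) by ring, Real.cos_two_mul]
          have := Real.sin_sq_add_cos_sq (π * x)
          linarith
        have e2 := Real.sin_sq_add_cos_sq (2 * π * x)
        linear_combination e2 - 2 * e1
      exact (sq_eq_sq₀ (norm_nonneg _) (by positivity)).1 this
    have e1 : (2 * π * I * Complex.exp ((2 * π * x : ℝ) * I) /
        Complex.exp ((2 * π * x : ℝ) * I)).im = 2 * π := by
      rw [mul_div_assoc, div_self (Complex.exp_ne_zero _), mul_one]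
      simp
    rw [hn, e1, Complex.norm_exp_ofReal_mul_I, Real.log_one]
    ring
  · have h : MeromorphicOn (fun t : ℝ => 2 * Real.sin (π * t)) (Set.uIcc 0 τ) := by
      intro x _
      apply AnalyticAt.meromorphicAt
      fun_prop
    have h2 := h.intervalIntegrable_log
    exact h2.const_mul _

/-- The critical value as a combination of dilogarithms. -/
theorem KK_value {ρ c h ξ τ : ℝ} (hh : 0 < h) (h0 : 0 ≤ τ) (h1 : τ ≤ 1 / 2)
    (s2 : 2 * π * ρ * (c - ξ) = ∫ u in (ξ - τ)..(ξ + τ),
      π * Real.sinh (2 * π * h) / (Real.cosh (2 * π * h) + Real.cos (2 * π * u))) :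
    4 * π * KK ρ c h ξ τ = 2 * (BW (ZZ h (ξ + τ)) - BW (ZZ h (ξ - τ))) +
      4 * BW (Complex.exp ((2 * π * τ : ℝ) * I)) := by
  have hab : ξ - τ ≤ ξ + τ := by linarith
  rw [integral_arg hh hab] at s2
  have key := integral_ee hh hab
  have hc := ee_continuous hh
  rw [intervalIntegral.integral_const_mul, intervalIntegral.integral_sub (hc.intervalIntegrable _ _)
    (by simp), intervalIntegral.integral_const, smul_eq_mul] at key
  rw [BW_circle h0 h1]
  unfold KK win
  linear_combination 2 * key - 4 * π * h * s2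

end Pool.Agent.Helper5.TB
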