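import Pool.Agent.Helper5.TB.BW

/-!
# The five-term relation of the Bloch-Wigner dilogarithm
-/

set_option autoImplicit false

namespace Pool.Agent.Helper5.TB

open Real Complex Filter Topology MeasureTheory Set

lemma countable_lin {c d : ℝ} (h : c ≠ 0 ∨ d ≠ 0) : {s : ℝ | s * c = d}.Countable := by
  apply Set.Countable.mono (s₂ := {d / c}) _ (Set.countable_singleton _)
  intro s hs
  rw [Set.mem_ofPred_eq] at hs
  have hc : c ≠ 0 := by
    rcases h with h | h
    · exact h
    · intro hc; rw [hc, mul_zero] at hs; exact h hs.symm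
  rw [Set.mem_singleton_iff, eq_div_iff hc, hs]

/-- The five-term relation for generic arguments. -/
lemma five_term_generic {x y : ℂ} (hx : x.im ≠ 0) (hy : y.im ≠ 0) (hxy : (x * y).im ≠ 0) :
    BW x + BW y + BW ((1 - x) / (1 - x * y)) + BW (1 - x * y) + BW ((1 - y) / (1 - x * y)) = 0 := by
  have hx0 : x ≠ 0 := by intro h; rw [h] at hx; simp at hx
  have hy0 : y ≠ 0 := by intro h; rw [h] at hy; simp at hy
  have hy1 : 1 - y ≠ 0 := by
    intro h
    have : y = 1 := by linear_combination -h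
    rw [this] at hy; simp at hy
  have hQ : ∀ s : ℝ, 1 - s * (x * y) ≠ 0 := by
    intro s h
    have h1 := congrArg Complex.im h
    simp only [Complex.sub_im, Complex.one_im, Complex.re_ofReal_mul, Complex.im_ofReal_mul,
      Complex.zero_im, zero_sub, neg_eq_zero, mul_eq_zero] at h1
    rcases h1 with h1 | h1
    · rw [h1] at h; simp at h
    · exact hxy h1
  have hP : ∀ s : ℝ, 1 - s * x ≠ 0 := by
    intro s h
    have h1 := congrArg Complex.im h
    simp only [Complex.sub_im, Complex.one_im, Complex.im_ofReal_mul,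
      Complex.zero_im, zero_sub, neg_eq_zero, mul_eq_zero] at h1
    rcases h1 with h1 | h1
    · rw [h1] at h; simp at h
    · exact hx h1
  set F : ℝ → ℝ := fun s => BW (s * x) + BW y + BW ((1 - s * x) / (1 - s * (x * y))) +
    BW (1 - s * (x * y)) + BW ((1 - y) / (1 - s * (x * y))) with hF
  set S : Set ℝ := {s : ℝ | s * (Complex.normSq x * y.im) = (x * y).im - x.im} ∪
    {s : ℝ | s * ((x * y).im - Complex.normSq y * x.im) = y.im} with hS
  have hcount : S.Countable := by
    apply Set.Countable.union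
    · apply countable_lin
      left
      exact mul_ne_zero (by simpa using hx0) hy
    · apply countable_lin
      right
      exact hy
  have hcont : ContinuousOn F (Icc 0 1) := by
    apply Continuous.continuousOn
    have c := BW_continuous
    have c1 : Continuous fun s : ℝ => (1 - (s : ℂ) * (x * y)) := by fun_prop
    have c2 : Continuous fun s : ℝ => (1 - (s : ℂ) * x) / (1 - (s : ℂ) * (x * y)) :=
      Continuous.div (by fun_prop) c1 hQ
    have c3 : Continuous fun s : ℝ => (1 - y) / (1 - (s : ℂ) * (x * y)) :=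
      Continuous.div (by fun_prop) c1 hQ
    have c4 : Continuous fun s : ℝ => (s : ℂ) * x := by fun_prop
    exact ((((c.comp c4).add continuous_const).add (c.comp c2)).add (c.comp c1)).add (c.comp c3)
  have hder : ∀ s ∈ Ioo (0 : ℝ) 1 \ S, HasDerivAt F ((fun _ => (0 : ℝ)) s) s := by
    intro s hs
    obtain ⟨⟨s0, s1⟩, hsS⟩ := hs
    rw [hS, Set.mem_union, not_or, Set.mem_ofPred_eq, Set.mem_ofPred_eq] at hsS
    obtain ⟨n3, n5⟩ := hsS
    have sC : (s : ℂ) ≠ 0 := by exact_mod_cast s0.ne'
    have P0 := hP s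
    have Q0 := hQ s
    have im1 : ((s : ℂ) * x).im ≠ 0 := by
      rw [Complex.im_ofReal_mul]; exact mul_ne_zero s0.ne' hx
    have im4 : (1 - (s : ℂ) * (x * y)).im ≠ 0 := by
      rw [Complex.sub_im, Complex.one_im, Complex.im_ofReal_mul]
      intro h
      have : s * (x * y).im = 0 := by linarith
      exact (mul_ne_zero s0.ne' hxy) this
    have im3 : ((1 - (s : ℂ) * x) / (1 - (s : ℂ) * (x * y))).im ≠ 0 := by
      rw [Complex.div_im, ← sub_div]
      apply div_ne_zero _ (by simpa using Q0)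
      intro h
      apply n3
      simp only [Complex.sub_im, Complex.one_im, Complex.sub_re, Complex.ofReal_re,
        Complex.ofReal_im, Complex.one_re, Complex.mul_re, Complex.mul_im,
        Complex.normSq_apply] at h ⊢
      apply mul_left_cancel₀ s0.ne'
      linear_combination -h
    have im5 : ((1 - y) / (1 - (s : ℂ) * (x * y))).im ≠ 0 := by
      rw [Complex.div_im, ← sub_div]
      apply div_ne_zero _ (by simpa using Q0)
      intro h
      apply n5
      simp only [Complex.sub_im, Complex.one_im, Complex.sub_re, Complex.ofReal_re,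
        Complex.ofReal_im, Complex.one_re, Complex.mul_re, Complex.mul_im,
        Complex.normSq_apply] at h ⊢
      linear_combination h
    have dS : HasDerivAt (fun s : ℝ => (s : ℂ)) 1 s := Complex.ofRealCLM.hasDerivAt
    have d1 : HasDerivAt (fun s : ℝ => (s : ℂ) * x) x s := by
      simpa using dS.mul_const x
    have dQ : HasDerivAt (fun s : ℝ => 1 - (s : ℂ) * (x * y)) (-(x * y)) s := by
      simpa using (dS.mul_const (x * y)).const_sub 1
    have dP : HasDerivAt (fun s : ℝ => 1 - (s : ℂ) * x) (-x) s := by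
      simpa using (dS.mul_const x).const_sub 1
    have d3 := dP.div dQ Q0
    have d5 := (hasDerivAt_const s (1 - y)).div dQ Q0
    have b1 := BW_hasDerivAt d1 im1
    have b3 := BW_hasDerivAt d3 im3
    have b4 := BW_hasDerivAt dQ im4
    have b5 := BW_hasDerivAt d5 im5
    have b := ((((b1.add_const (BW y))).add b3).add b4).add b5
    refine b.congr_deriv ?_
    simp only [Pi.div_apply]
    obtain ⟨P, hPd⟩ : ∃ P, P = 1 - (s : ℂ) * x := ⟨_, rfl⟩
    obtain ⟨Q, hQd⟩ : ∃ Q, Q = 1 - (s : ℂ) * (x * y) := ⟨_, rfl⟩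
    rw [← hPd, ← hQd]
    rw [← hPd] at P0
    rw [← hQd] at Q0
    have i1 : (x / ((s : ℂ) * x)).im = 0 := by
      have : x / ((s : ℂ) * x) = ((1 / s : ℝ) : ℂ) := by
        push_cast; field_simp
      rw [this, Complex.ofReal_im]
    have e4 : 1 - Q = (s : ℂ) * (x * y) := by rw [hQd]; ring
    have i4 : (-(-(x * y)) / (1 - Q)).im = 0 := by
      have : -(-(x * y)) / (1 - Q) = ((1 / s : ℝ) : ℂ) := by
        rw [e4]
        push_cast; field_simp
      rw [this, Complex.ofReal_im]
    have e3 : 1 - P / Q = (s : ℂ) * x * (1 - y) / Q := by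
      rw [eq_div_iff Q0, sub_mul, div_mul_cancel₀ _ Q0, hPd, hQd]; ring
    have e5 : 1 - (1 - y) / Q = y * P / Q := by
      rw [eq_div_iff Q0, sub_mul, div_mul_cancel₀ _ Q0, hPd, hQd]; ring
    have j3 : ((-x * Q - P * -(x * y)) / Q ^ 2 / (P / Q)).im = (-x / P).im - (-(x * y) / Q).im := by
      rw [← Complex.sub_im]
      congr 1
      field_simp
    have j3' : (-((-x * Q - P * -(x * y)) / Q ^ 2) / (1 - P / Q)).im = - (-(x * y) / Q).im := by
      rw [e3]
      have : -((-x * Q - P * -(x * y)) / Q ^ 2) / ((s : ℂ) * x * (1 - y) / Q) =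
        ((1 / s : ℝ) : ℂ) - -(x * y) / Q := by
        push_cast
        field_simp
        rw [hPd, hQd]
        ring
      rw [this, Complex.sub_im, Complex.ofReal_im, zero_sub]
    have j5 : ((0 * Q - (1 - y) * -(x * y)) / Q ^ 2 / ((1 - y) / Q)).im = - (-(x * y) / Q).im := by
      rw [← Complex.neg_im]
      congr 1
      field_simp
      ring
    have j5' : (-((0 * Q - (1 - y) * -(x * y)) / Q ^ 2) / (1 - (1 - y) / Q)).im =
        (-x / P).im - (-(x * y) / Q).im := by
      rw [e5, ← Complex.sub_im]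
      congr 1
      field_simp
      rw [hPd, hQd]
      ring
    have np : 0 < ‖P‖ := norm_pos_iff.2 P0
    have nq : 0 < ‖Q‖ := norm_pos_iff.2 Q0
    have nx : 0 < ‖x‖ := norm_pos_iff.2 hx0
    have ny : 0 < ‖y‖ := norm_pos_iff.2 hy0
    have ny1 : 0 < ‖1 - y‖ := norm_pos_iff.2 hy1
    have ns : 0 < ‖(s : ℂ)‖ := norm_pos_iff.2 sC
    have l1 : Real.log ‖(s : ℂ) * x‖ = Real.log ‖(s : ℂ)‖ + Real.log ‖x‖ := by
      rw [norm_mul, Real.log_mul ns.ne' nx.ne']
    have l3 : Real.log ‖P / Q‖ = Real.log ‖P‖ - Real.log ‖Q‖ := by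
      rw [norm_div, Real.log_div np.ne' nq.ne']
    have l3' : Real.log ‖1 - P / Q‖ = Real.log ‖(s : ℂ)‖ + Real.log ‖x‖ + Real.log ‖1 - y‖ -
        Real.log ‖Q‖ := by
      rw [e3, norm_div, norm_mul, norm_mul, Real.log_div (by positivity) nq.ne',
        Real.log_mul (by positivity) ny1.ne', Real.log_mul ns.ne' nx.ne']
    have l4 : Real.log ‖1 - Q‖ = Real.log ‖(s : ℂ)‖ + (Real.log ‖x‖ + Real.log ‖y‖) := by
      rw [e4, norm_mul, norm_mul, Real.log_mul ns.ne' (by positivity), Real.log_mul nx.ne' ny.ne']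
    have l5 : Real.log ‖(1 - y) / Q‖ = Real.log ‖1 - y‖ - Real.log ‖Q‖ := by
      rw [norm_div, Real.log_div ny1.ne' nq.ne']
    have l5' : Real.log ‖1 - (1 - y) / Q‖ = Real.log ‖y‖ + Real.log ‖P‖ - Real.log ‖Q‖ := by
      rw [e5, norm_div, norm_mul, Real.log_div (by positivity) nq.ne', Real.log_mul ny.ne' np.ne']
    rw [i1, i4, j3, j3', j5, j5', l1, l3, l3', l4, l5, l5']
    ring
  have hint := integral_eq_of_hasDerivAt_off_countable_of_le F (fun _ => (0 : ℝ)) zero_le_one
    hcount hcont hder (by simp)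
  simp only [intervalIntegral.integral_zero] at hint
  have h0 : F 0 = 0 := by
    simp only [hF, Complex.ofReal_zero, zero_mul, sub_zero, div_one, BW_zero, BW_one, BW_one_sub]
    ring
  have h1 : F 1 = BW x + BW y + BW ((1 - x) / (1 - x * y)) + BW (1 - x * y) +
      BW ((1 - y) / (1 - x * y)) := by
    simp only [hF, Complex.ofReal_one, one_mul]
  rw [h0, sub_zero] at hint
  rw [← h1, ← hint]

lemma eventually_im_ne {z : ℂ} (hz : z ≠ 0) {k : ℝ} (hk : k ≠ 0) :
    ∀ᶠ ε in 𝓝[≠] (0 : ℝ), (z * Complex.exp ((k * ε : ℝ) * I)).im ≠ 0 := by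
  have hd : HasDerivAt (fun ε : ℝ => z * Complex.exp ((k * ε : ℝ) * I)) (z * (k * I)) 0 := by
    have h1 : HasDerivAt (fun ε : ℝ => ((k * ε : ℝ) : ℂ) * I) (k * I) 0 := by
      have h2 : HasDerivAt (fun ε : ℝ => ((k * ε : ℝ) : ℂ)) (k : ℂ) 0 := by
        have := ((hasDerivAt_id (0 : ℝ)).const_mul k).ofReal_comp
        simpa using this
      exact h2.mul_const I
    have h3 := (h1.cexp).const_mul z
    simpa using h3
  have hi : HasDerivAt (fun ε : ℝ => (z * Complex.exp ((k * ε : ℝ) * I)).im) (k * z.re) 0 := by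
    have h2 := Complex.imCLM.hasFDerivAt.comp_hasDerivAt (0 : ℝ) hd
    have e : Complex.imCLM (z * (k * I)) = k * z.re := by
      simp [Complex.mul_im]
      ring
    rw [e] at h2
    exact h2
  by_cases him : z.im = 0
  · have hre : z.re ≠ 0 := by
      intro h
      exact hz (Complex.ext h him)
    have h := hi.eventually_ne (mul_ne_zero hk hre) (c := 0)
    exact h
  · have hc : ContinuousAt (fun ε : ℝ => (z * Complex.exp ((k * ε : ℝ) * I)).im) 0 :=
      hi.continuousAt
    have h0 : (z * Complex.exp ((k * (0 : ℝ) : ℝ) * I)).im ≠ 0 := by simpa using him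
    exact (hc.eventually_ne h0).filter_mono nhdsWithin_le_nhds

/-- **The five-term relation.** -/
theorem five_term {x y : ℂ} (hxy : 1 - x * y ≠ 0) :
    BW x + BW y + BW ((1 - x) / (1 - x * y)) + BW (1 - x * y) + BW ((1 - y) / (1 - x * y)) = 0 := by
  by_cases hx0 : x = 0
  · rw [hx0]
    simp only [zero_mul, sub_zero, div_one, BW_zero, BW_one, BW_one_sub]
    ring
  by_cases hy0 : y = 0
  · rw [hy0]
    simp only [mul_zero, sub_zero, div_one, BW_zero, BW_one, BW_one_sub]
    ring
  set X : ℝ → ℂ := fun ε => x * Complex.exp ((1 * ε : ℝ) * I) with hX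
  set Y : ℝ → ℂ := fun ε => y * Complex.exp ((1 * ε : ℝ) * I) with hY
  have hXY : ∀ ε, X ε * Y ε = (x * y) * Complex.exp ((2 * ε : ℝ) * I) := by
    intro ε
    simp only [hX, hY]
    rw [show x * Complex.exp ((1 * ε : ℝ) * I) * (y * Complex.exp ((1 * ε : ℝ) * I)) =
      x * y * (Complex.exp ((1 * ε : ℝ) * I) * Complex.exp ((1 * ε : ℝ) * I)) by ring,
      ← Complex.exp_add]
    congr 2
    push_cast
    ring
  have cX : ContinuousAt X 0 := by simp only [hX]; fun_prop
  have cY : ContinuousAt Y 0 := by simp only [hY]; fun_prop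
  have X0 : X 0 = x := by simp [hX]
  have Y0 : Y 0 = y := by simp [hY]
  set G : ℝ → ℝ := fun ε => BW (X ε) + BW (Y ε) + BW ((1 - X ε) / (1 - X ε * Y ε)) +
    BW (1 - X ε * Y ε) + BW ((1 - Y ε) / (1 - X ε * Y ε)) with hG
  have c := BW_continuous
  have cG : ContinuousAt G 0 := by
    have c1 : ContinuousAt (fun ε => 1 - X ε * Y ε) 0 := continuousAt_const.sub (cX.mul cY)
    have c0 : 1 - X 0 * Y 0 ≠ 0 := by rw [X0, Y0]; exact hxy
    have c2 : ContinuousAt (fun ε => (1 - X ε) / (1 - X ε * Y ε)) 0 :=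
      (continuousAt_const.sub cX).div c1 c0
    have c3 : ContinuousAt (fun ε => (1 - Y ε) / (1 - X ε * Y ε)) 0 :=
      (continuousAt_const.sub cY).div c1 c0
    exact ((((c.continuousAt.comp cX).add (c.continuousAt.comp cY)).add
      (c.continuousAt.comp c2)).add (c.continuousAt.comp c1)).add (c.continuousAt.comp c3)
  have hev : ∀ᶠ ε in 𝓝[≠] (0 : ℝ), G ε = 0 := by
    filter_upwards [eventually_im_ne hx0 one_ne_zero, eventually_im_ne hy0 one_ne_zero,
      eventually_im_ne (mul_ne_zero hx0 hy0) two_ne_zero] with ε h1 h2 h3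
    exact five_term_generic h1 h2 (by rw [hXY]; exact h3)
  have h1 : Tendsto G (𝓝[≠] 0) (𝓝 (G 0)) := cG.tendsto.mono_left nhdsWithin_le_nhds
  have h2 : Tendsto G (𝓝[≠] 0) (𝓝 0) :=
    tendsto_const_nhds.congr' (hev.mono fun ε h => h.symm)
  have h3 := tendsto_nhds_unique h1 h2
  simp only [hG, X0, Y0] at h3
  exact h3

end Pool.Agent.Helper5.TB
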