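import Pool.Agent.Helper5.TB.Angles
import Pool.Agent.Helper11.Kash.Loba

/-!
# The maximum of the volume functional
-/

set_option autoImplicit false

namespace Pool.Agent.Helper5.TB

open Real Complex
open Pool.Agent.Helper9.TB (Lob ee ll win KK kap x0 WW Saddle gx gy gz Adm gvol)

/-! ### The triangle with vertices `0, 1, z` -/

lemma arg_mem {z : ℂ} (hz : 0 < z.im) : 0 < arg z ∧ arg z < π := by
  have h1 : 0 ≤ arg z := Complex.arg_nonneg_iff.2 hz.le
  have h2 := Complex.arg_le_pi z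
  refine ⟨lt_of_le_of_ne h1 ?_, lt_of_le_of_ne h2 ?_⟩
  · intro h
    have := (Complex.arg_eq_zero_iff.1 h.symm).2
    linarith
  · intro h
    have := (Complex.arg_eq_pi_iff.1 h).2
    linarith

lemma im_inv_one_sub {z : ℂ} (hz : 0 < z.im) : 0 < ((1 - z)⁻¹).im := by
  have h1 : 1 - z ≠ 0 := by
    intro h0
    have := congrArg Complex.im h0
    simp at this
    linarith
  rw [Complex.inv_im]
  apply div_pos _ (Complex.normSq_pos.2 h1)
  simp [hz]

lemma im_one_sub_inv {z : ℂ} (hz : 0 < z.im) : 0 < (1 - z⁻¹).im := by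
  have h1 : z ≠ 0 := by
    intro h0
    rw [h0] at hz; simp at hz
  rw [Complex.sub_im, Complex.one_im, Complex.inv_im, zero_sub, ← neg_div, neg_neg]
  exact div_pos hz (Complex.normSq_pos.2 h1)

lemma angle_bound {x y : ℝ} (h : (x : Real.Angle) = y) (h1 : x - y < 2 * π) (h2 : -(2 * π) < x - y) :
    x = y := by
  have hpi := Real.pi_pos
  obtain ⟨k, hk⟩ := Real.Angle.angle_eq_iff_two_pi_dvd_sub.1 h
  rw [hk] at h1 h2
  have h3 : (k : ℝ) < 1 := by
    by_contra hc
    push Not at hc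
    nlinarith only [hc, hpi, h1]
  have h4 : (-1 : ℝ) < k := by
    by_contra hc
    push Not at hc
    nlinarith only [hc, hpi, h2]
  have h5 : k < 1 := by exact_mod_cast h3
  have h6 : -1 < k := by exact_mod_cast h4
  have h7 : k = 0 := by omega
  rw [h7] at hk
  simp at hk
  linarith only [hk]

lemma triangle_sum {z : ℂ} (hz : 0 < z.im) :
    arg z + arg (1 - z)⁻¹ + arg (1 - z⁻¹) = π := by
  have hpi := Real.pi_pos
  have a1 := arg_mem hz
  have a2 := arg_mem (im_inv_one_sub hz)
  have a3 := arg_mem (im_one_sub_inv hz)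
  have z0 : z ≠ 0 := by
    intro h0
    rw [h0] at hz; simp at hz
  have z1 : 1 - z ≠ 0 := by
    intro h0
    have := congrArg Complex.im h0
    simp at this
    linarith only [this, hz]
  have z2 : 1 - z⁻¹ ≠ 0 := by
    intro h0
    rw [h0] at a3; simp at a3
  apply angle_bound
  · rw [Real.Angle.coe_add, Real.Angle.coe_add, ← Complex.arg_mul_coe_angle z0 (inv_ne_zero z1),
      ← Complex.arg_mul_coe_angle (mul_ne_zero z0 (inv_ne_zero z1)) z2]
    have : z * (1 - z)⁻¹ * (1 - z⁻¹) = -1 := by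
      field_simp
      ring
    rw [this, Complex.arg_neg_one]
  · linarith only [a3, a2, a1]
  · linarith only [a3, a2, a1]

lemma sin_args {z : ℂ} (hz : 0 < z.im) :
    Real.sin (arg z) = z.im / ‖z‖ ∧ Real.sin (arg (1 - z)⁻¹) = z.im / ‖1 - z‖ ∧
      Real.sin (arg (1 - z⁻¹)) = z.im / (‖z‖ * ‖1 - z‖) := by
  have z0 : z ≠ 0 := by
    intro h0
    rw [h0] at hz; simp at hz
  have z1 : 1 - z ≠ 0 := by
    intro h0
    have := congrArg Complex.im h0
    simp at this
    linarith
  have n0 : ‖z‖ ≠ 0 := norm_ne_zero_iff.2 z0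
  have n1 : ‖1 - z‖ ≠ 0 := norm_ne_zero_iff.2 z1
  refine ⟨Complex.sin_arg _, ?_, ?_⟩
  · rw [Complex.sin_arg, Complex.inv_im, norm_inv, Complex.normSq_eq_norm_sq]
    simp only [Complex.sub_im, Complex.one_im, zero_sub, neg_neg]
    field_simp
  · rw [Complex.sin_arg, Complex.sub_im, Complex.one_im, Complex.inv_im, Complex.normSq_eq_norm_sq]
    have e : 1 - z⁻¹ = -((1 - z) / z) := by field_simp; ring
    rw [e, norm_neg, norm_div]
    field_simp
    ring

/-- logarithms of the quotients of sines -/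
lemma log_sin_args {z : ℂ} (hz : 0 < z.im) :
    Real.log (2 * Real.sin (arg (1 - z)⁻¹)) - Real.log (2 * Real.sin (arg (1 - z⁻¹))) =
      Real.log ‖z‖ ∧
    Real.log (2 * Real.sin (arg z)) - Real.log (2 * Real.sin (arg (1 - z⁻¹))) =
      Real.log ‖1 - z‖ := by
  obtain ⟨e1, e2, e3⟩ := sin_args hz
  have z0 : z ≠ 0 := by
    intro h0
    rw [h0] at hz; simp at hz
  have z1 : 1 - z ≠ 0 := by
    intro h0
    have := congrArg Complex.im h0
    simp at this
    linarith only [this, hz]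
  have n0 : 0 < ‖z‖ := norm_pos_iff.2 z0
  have n1 : 0 < ‖1 - z‖ := norm_pos_iff.2 z1
  rw [e1, e2, e3]
  constructor
  · rw [← Real.log_div (by positivity) (by positivity)]
    congr 1
    field_simp
  · rw [← Real.log_div (by positivity) (by positivity)]
    congr 1
    field_simp

/-- isosceles triangles -/
lemma arg_isosceles {z : ℂ} (hn : ‖z‖ = 1) : arg (1 - z)⁻¹ = arg (1 - z⁻¹) := by
  have h1 : z⁻¹ = (starRingEnd ℂ) z := Complex.inv_eq_conj hn
  rw [h1]
  have h2 : 1 - (starRingEnd ℂ) z = (starRingEnd ℂ) (1 - z) := by simp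
  rw [h2]
  by_cases h0 : 1 - z = 0
  · rw [h0]; simp
  have h3 : (1 - z)⁻¹ = (((Complex.normSq (1 - z))⁻¹ : ℝ) : ℂ) * (starRingEnd ℂ) (1 - z) := by
    rw [Complex.inv_def, mul_comm]
  rw [h3, Complex.arg_real_mul]
  exact inv_pos.2 (Complex.normSq_pos.2 h0)

/-! ### The critical angles -/

variable {r : ℕ} {h ξ : ℝ}

/-- the index of the tetrahedron in the first half of the layers -/
def kk (r i : ℕ) : ℕ := min i (2 * r - i)

/-- the pleating angles -/
noncomputable def Wc (h ξ : ℝ) (r i : ℕ) : ℝ := π - arg (uj h ξ (kk r i))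

lemma uj_one (hh : 0 < h) : uj h ξ 1 = 1 := by
  unfold uj
  rw [div_self (sj_ne hh ξ le_rfl), one_pow]

lemma one_sub_uj (hh : 0 < h) {j : ℕ} (hj : 1 ≤ j) :
    1 - uj h ξ j = -(sj h ξ (j - 1) * sj h ξ (j + 1)) / sj h ξ 1 ^ 2 := by
  have hs := sj_ne hh ξ (j := 1) le_rfl
  obtain ⟨m, rfl⟩ : ∃ m, j = m + 1 := ⟨j - 1, by omega⟩
  rw [Nat.add_sub_cancel]
  have := sj_mul h ξ m
  rw [show m + 2 = m + 1 + 1 from rfl] at this
  rw [this]
  unfold uj
  field_simp
  ring

lemma uj_prod (hh : 0 < h) {j : ℕ} (hj : 1 ≤ j) :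
    (1 - uj h ξ j) ^ 2 = uj h ξ (j - 1) * uj h ξ (j + 1) := by
  have hs := sj_ne hh ξ (j := 1) le_rfl
  rw [one_sub_uj hh hj]
  unfold uj
  field_simp

lemma uj_ne (hh : 0 < h) {j : ℕ} (hj : 1 ≤ j) : uj h ξ j ≠ 0 :=
  pow_ne_zero 2 (div_ne_zero (sj_ne hh ξ hj) (sj_ne hh ξ le_rfl))

/-- the angle at the other pair of edges -/
lemma angle_mid (hr : 4 ≤ r) (H : Saddle r (1 / r) h ξ) {j : ℕ} (h2 : 2 ≤ j) (hj : j + 1 ≤ r) :
    arg (1 - uj h ξ j)⁻¹ = (π - arg (uj h ξ (j - 1)) + (π - arg (uj h ξ (j + 1)))) / 2 := by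
  have B := basic hr H
  have hpi := Real.pi_pos
  have hA := arg_mem (uj_im_pos hr H (j := j + 1) (by omega) hj)
  have hB := arg_mem (im_inv_one_sub (uj_im_pos hr H (j := j) h2 (by omega)))
  have hA1 : 0 ≤ arg (uj h ξ (j - 1)) ∧ arg (uj h ξ (j - 1)) < π := by
    rcases Nat.lt_or_ge j 3 with h3 | h3
    · have : j - 1 = 1 := by omega
      rw [this, uj_one B.hh]
      simp [hpi]
    · have := arg_mem (uj_im_pos hr H (j := j - 1) (by omega) (by omega))
      exact ⟨this.1.le, this.2⟩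
  have e := uj_prod (ξ := ξ) B.hh (j := j) (by omega)
  have n1 := uj_ne (ξ := ξ) B.hh (j := j - 1) (by omega)
  have n2 := uj_ne (ξ := ξ) B.hh (j := j + 1) (by omega)
  have n3 : 1 - uj h ξ j ≠ 0 := by
    intro h0
    rw [h0] at e
    exact mul_ne_zero n1 n2 (by rw [← e]; ring)
  have key : arg (uj h ξ (j - 1)) + arg (uj h ξ (j + 1)) + 2 * arg (1 - uj h ξ j)⁻¹ = 2 * π := by
    apply angle_bound
    · rw [Real.Angle.coe_add, Real.Angle.coe_add, ← Complex.arg_mul_coe_angle n1 n2, ← e, pow_two,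
        Complex.arg_mul_coe_angle n3 n3, two_mul, Real.Angle.coe_add, Complex.arg_inv_coe_angle]
      simp
    · linarith only [hA1, hB, hA]
    · linarith only [hA1, hB, hA]
  linarith only [key]

lemma kk_le {i : ℕ} (h2 : i ≤ r) : kk r i = i := by unfold kk; omega

lemma kk_ge {i : ℕ} (h2 : r ≤ i) (h3 : i ≤ 2 * r) : kk r i = 2 * r - i := by unfold kk; omega

/-- the angles of the critical point -/
lemma critical_angles (hr : 4 ≤ r) (H : Saddle r (1 / r) h ξ) {i : ℕ} (h2 : 2 ≤ i)
    (hi : i ≤ 2 * r - 2) :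
    gx r (Wc h ξ r) i = arg (1 - uj h ξ (kk r i))⁻¹ ∧
    gy r (Wc h ξ r) i = arg (1 - (uj h ξ (kk r i))⁻¹) ∧
    gz (Wc h ξ r) i = arg (uj h ξ (kk r i)) := by
  have B := basic hr H
  have hk2 : 2 ≤ kk r i := by unfold kk; omega
  have hkr : kk r i ≤ r := by unfold kk; omega
  have him := uj_im_pos hr H hk2 hkr
  have hsum := triangle_sum him
  have hgx : gx r (Wc h ξ r) i = arg (1 - uj h ξ (kk r i))⁻¹ := by
    unfold gx
    rcases lt_trichotomy i r with hlt | heq | hgt
    · rw [if_neg (by omega)]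
      have e1 : kk r i = i := kk_le (by omega)
      have e2 : kk r (i - 1) = i - 1 := kk_le (by omega)
      have e3 : kk r (i + 1) = i + 1 := kk_le (by omega)
      unfold Wc
      rw [e1, e2, e3, angle_mid hr H h2 (by omega)]
    · rw [if_pos heq]
      have e1 : kk r i = r := by rw [heq]; exact kk_le le_rfl
      have e2 : kk r (i - 1) = r - 1 := by rw [heq]; exact kk_le (by omega)
      have e3 : kk r (i + 1) = r - 1 := by rw [heq, kk_ge (by omega) (by omega)]; omega
      have hn : ‖uj h ξ r‖ = 1 := by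
        unfold uj
        rw [norm_pow, norm_div, norm_sj_r hr H,
          div_self (norm_ne_zero_iff.2 (sj_ne B.hh ξ le_rfl)), one_pow]
      have hiso := arg_isosceles hn
      rw [e1] at hsum
      unfold Wc
      rw [e1, e2, e3]
      linarith only [hiso, hsum]
    · rw [if_neg (by omega)]
      have e1 : kk r i = 2 * r - i := kk_ge (by omega) (by omega)
      have e2 : kk r (i - 1) = 2 * r - i + 1 := by rw [kk_ge (by omega) (by omega)]; omega
      have e3 : kk r (i + 1) = 2 * r - i - 1 := by rw [kk_ge (by omega) (by omega)]; omega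
      unfold Wc
      rw [e1, e2, e3, angle_mid hr H (by omega) (by omega)]
      ring
  refine ⟨hgx, ?_, ?_⟩
  · unfold gy
    rw [hgx]
    unfold Wc
    linarith only [hsum]
  · unfold gz Wc
    ring

lemma Wc_adm (hr : 4 ≤ r) (H : Saddle r (1 / r) h ξ) : Adm r (Wc h ξ r) := by
  have B := basic hr H
  refine ⟨?_, ?_, ?_⟩
  · unfold Wc
    rw [kk_le (by omega), uj_one B.hh]
    simp
  · unfold Wc
    rw [kk_ge (by omega) (by omega), show 2 * r - (2 * r - 1) = 1 by omega, uj_one B.hh]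
    simp
  · intro i h2 hi
    obtain ⟨e1, e2, e3⟩ := critical_angles hr H h2 hi
    have hk2 : 2 ≤ kk r i := by unfold kk; omega
    have hkr : kk r i ≤ r := by unfold kk; omega
    have him := uj_im_pos hr H hk2 hkr
    rw [e1, e2, e3]
    exact ⟨(arg_mem (im_inv_one_sub him)).1.le, (arg_mem (im_one_sub_inv him)).1.le,
      (arg_mem him).1.le⟩

lemma sum_kk (f : ℕ → ℝ) (hr : 4 ≤ r) :
    ∑ i ∈ Finset.Icc 2 (2 * r - 2), f (kk r i) = 2 * ∑ j ∈ Finset.Ico 2 r, f j + f r := by
  have e0 : Finset.Icc 2 (2 * r - 2) = Finset.Ico 2 (2 * r - 1) := by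
    ext i; simp only [Finset.mem_Icc, Finset.mem_Ico]; omega
  rw [e0, ← Finset.sum_Ico_consecutive _ (show 2 ≤ r by omega) (show r ≤ 2 * r - 1 by omega),
    Finset.sum_eq_sum_Ico_succ_bot (show r < 2 * r - 1 by omega), kk_le le_rfl]
  have e1 : ∑ i ∈ Finset.Ico 2 r, f (kk r i) = ∑ j ∈ Finset.Ico 2 r, f j := by
    apply Finset.sum_congr rfl
    intro i hi
    rw [Finset.mem_Ico] at hi
    rw [kk_le (by omega)]
  have e2 : ∑ i ∈ Finset.Ico (r + 1) (2 * r - 1), f (kk r i) = ∑ j ∈ Finset.Ico 2 r, f j := by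
    apply Finset.sum_nbij' (fun i => 2 * r - i) (fun j => 2 * r - j)
    · intro i hi; simp only [Finset.mem_Ico] at hi ⊢; omega
    · intro i hi; simp only [Finset.mem_Ico] at hi ⊢; omega
    · intro i hi; simp only [Finset.mem_Ico] at hi ⊢; omega
    · intro i hi; simp only [Finset.mem_Ico] at hi ⊢; omega
    · intro i hi
      rw [Finset.mem_Ico] at hi
      rw [kk_ge (by omega) (by omega)]
  rw [e1, e2]
  ring

lemma gvol_Wc (hr : 4 ≤ r) (H : Saddle r (1 / r) h ξ) :
    gvol r (Wc h ξ r) = 4 * π * KK r (1 / r) h ξ (x0 h ξ) := by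
  have B := basic hr H
  rw [value_eq hr H, ← sum_kk (fun j => BW (uj h ξ j)) hr, Finset.mul_sum]
  unfold gvol
  apply Finset.sum_congr rfl
  intro i hi
  rw [Finset.mem_Icc] at hi
  obtain ⟨e1, e2, e3⟩ := critical_angles hr H hi.1 hi.2
  have hk2 : 2 ≤ kk r i := by unfold kk; omega
  have hkr : kk r i ≤ r := by unfold kk; omega
  have him := uj_im_pos hr H hk2 hkr
  have hu0 := uj_ne (ξ := ξ) B.hh (j := kk r i) (by omega)
  have hu1 : uj h ξ (kk r i) ≠ 1 := by
    intro h0
    rw [h0] at him; simp at him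
  rw [e1, e2, e3, BW_eq_angles _ hu0 hu1]
  ring

/-- logarithmic form of the gluing equations -/
lemma gluing (hr : 4 ≤ r) (H : Saddle r (1 / r) h ξ) {i : ℕ} (h2 : 2 ≤ i) (hi : i ≤ 2 * r - 2) :
    2 * Real.log ‖1 - uj h ξ (kk r i)‖ =
      Real.log ‖uj h ξ (kk r (i - 1))‖ + Real.log ‖uj h ξ (kk r (i + 1))‖ := by
  have B := basic hr H
  have base : ∀ j, 2 ≤ j → 2 * Real.log ‖1 - uj h ξ j‖ =
      Real.log ‖uj h ξ (j - 1)‖ + Real.log ‖uj h ξ (j + 1)‖ := by
    intro j hj
    have e := congrArg norm (uj_prod (ξ := ξ) B.hh (j := j) (by omega))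
    have n1 := norm_ne_zero_iff.2 (uj_ne (ξ := ξ) B.hh (j := j - 1) (by omega))
    have n2 := norm_ne_zero_iff.2 (uj_ne (ξ := ξ) B.hh (j := j + 1) (by omega))
    rw [norm_pow, norm_mul] at e
    have e' := congrArg Real.log e
    rw [Real.log_pow, Real.log_mul n1 n2] at e'
    exact_mod_cast e'
  rcases lt_trichotomy i r with hlt | heq | hgt
  · rw [kk_le (by omega), kk_le (by omega), kk_le (by omega)]
    exact base i h2
  · rw [heq, kk_le le_rfl, kk_le (by omega), kk_ge (by omega) (by omega),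
      show 2 * r - (r + 1) = r - 1 by omega, base r (by omega)]
    have : ‖uj h ξ (r + 1)‖ = ‖uj h ξ (r - 1)‖ := by
      unfold uj
      rw [norm_pow, norm_pow, norm_div, norm_div, norm_sj_hinge hr H]
    rw [this]
  · rw [kk_ge (by omega) (by omega), kk_ge (by omega) (by omega), kk_ge (by omega) (by omega),
      base (2 * r - i) (by omega)]
    rw [show 2 * r - (i - 1) = 2 * r - i + 1 by omega, show 2 * r - (i + 1) = 2 * r - i - 1 by omega]
    ring

/-- **The maximum of the volume functional.** -/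
theorem gvol_le (hr : 4 ≤ r) (H : Saddle r (1 / r) h ξ) (w : ℕ → ℝ) (hw : Adm r w) :
    gvol r w ≤ gvol r (Wc h ξ r) := by
  have B := basic hr H
  set d : ℕ → ℝ := fun i => w i - Wc h ξ r i with hd
  set P : ℕ → ℝ := fun i => Real.log ‖uj h ξ (kk r i)‖ with hP
  set F : ℕ → ℝ := fun i => P i * d (i + 1) - P (i + 1) * d i with hF
  have hWc := Wc_adm hr H
  -- tangent inequality in every layer
  have layer : ∀ i ∈ Finset.Icc 2 (2 * r - 2),
      2 * (Lob (gx r w i) + Lob (gy r w i) + Lob (gz w i)) ≤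
      2 * (Lob (gx r (Wc h ξ r) i) + Lob (gy r (Wc h ξ r) i) + Lob (gz (Wc h ξ r) i)) -
        (F i - F (i - 1)) := by
    intro i hi
    rw [Finset.mem_Icc] at hi
    obtain ⟨h2, hi2⟩ := hi
    obtain ⟨e1, e2, e3⟩ := critical_angles hr H h2 hi2
    have hk2 : 2 ≤ kk r i := by unfold kk; omega
    have hkr : kk r i ≤ r := by unfold kk; omega
    have him := uj_im_pos hr H hk2 hkr
    obtain ⟨w1, w2, w3⟩ := hw.nonneg i h2 hi2
    have a1 := arg_mem (im_inv_one_sub him)
    have a2 := arg_mem (im_one_sub_inv him)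
    have a3 := arg_mem him
    have hsum := triangle_sum him
    have hsw : gx r w i + gy r w i + gz w i = π := by unfold gy gz; ring
    have T := Pool.Agent.Helper11.Kash.HH_tangent w1 w2 w3 hsw a1.1 a2.1 a3.1 (by linarith only [hsum])
    obtain ⟨g1, g2⟩ := log_sin_args him
    have gl := gluing hr H h2 hi2
    have L : ∀ x, Pool.Agent.Helper9.Kashaev.HH x = - Lob x := by
      intro x; unfold Lob; rw [neg_neg]; rfl
    rw [L, L, L, L, L, L] at T
    rw [← e1, ← e2, ← e3] at T
    -- the linear part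
    have hlin : Real.log (2 * Real.sin (gx r (Wc h ξ r) i)) * (gx r w i - gx r (Wc h ξ r) i) +
        Real.log (2 * Real.sin (gy r (Wc h ξ r) i)) * (gy r w i - gy r (Wc h ξ r) i) +
        Real.log (2 * Real.sin (gz (Wc h ξ r) i)) * (gz w i - gz (Wc h ξ r) i) =
        (F i - F (i - 1)) / 2 := by
      rw [e1, e2, e3]
      have k1 : Real.log (2 * Real.sin (arg (1 - uj h ξ (kk r i))⁻¹)) =
        Real.log (2 * Real.sin (arg (1 - (uj h ξ (kk r i))⁻¹))) + P i := by
        rw [hP]; linarith only [g1]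
      have k2 : Real.log (2 * Real.sin (arg (uj h ξ (kk r i)))) =
        Real.log (2 * Real.sin (arg (1 - (uj h ξ (kk r i))⁻¹))) + (P (i - 1) + P (i + 1)) / 2 := by
        rw [hP]; linarith only [gl, g2]
      rw [k1, k2, ← e1, ← e2, ← e3]
      have dx : P i * (gx r w i - gx r (Wc h ξ r) i) = P i * ((d (i - 1) + d (i + 1)) / 2) := by
        by_cases hir : i = r
        · have : P i = 0 := by
            rw [hP]
            simp only
            rw [hir, kk_le le_rfl]
            unfold uj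
            rw [norm_pow, norm_div, norm_sj_r hr H,
              div_self (norm_ne_zero_iff.2 (sj_ne B.hh ξ le_rfl)), one_pow, Real.log_one]
          rw [this, zero_mul, zero_mul]
        · unfold gx
          rw [if_neg hir, if_neg hir, hd]
          ring
      have dy : gy r w i - gy r (Wc h ξ r) i = d i - (gx r w i - gx r (Wc h ξ r) i) := by
        unfold gy; rw [hd]; ring
      have dz : gz w i - gz (Wc h ξ r) i = - d i := by
        unfold gz; rw [hd]; ring
      rw [dy, dz]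
      have hFi : F i - F (i - 1) = P i * d (i + 1) - P (i + 1) * d i -
          (P (i - 1) * d i - P i * d (i - 1)) := by
        rw [hF]
        simp only
        rw [show i - 1 + 1 = i by omega]
      rw [hFi]
      linear_combination dx
    linarith only [hlin, T]
  have hsumF : ∑ i ∈ Finset.Icc 2 (2 * r - 2), (F i - F (i - 1)) = 0 := by
    have e0 : Finset.Icc 2 (2 * r - 2) = Finset.Ico 2 (2 * r - 1) := by
      ext i; simp only [Finset.mem_Icc, Finset.mem_Ico]; omega
    have tel : ∀ n, 2 ≤ n → ∑ i ∈ Finset.Ico 2 n, (F i - F (i - 1)) = F (n - 1) - F 1 := by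
      intro n hn
      induction n, hn using Nat.le_induction with
      | base => simp
      | succ n hn ih =>
        rw [Finset.sum_Ico_succ_top hn, ih, Nat.add_sub_cancel]
        ring
    rw [e0, tel _ (by omega)]
    have hP1 : P 1 = 0 := by
      rw [hP]; simp only
      rw [kk_le (by omega), uj_one B.hh]; simp
    have hd1 : d 1 = 0 := by
      rw [hd]; simp only
      rw [hw.first, hWc.first]; ring
    have hP2 : P (2 * r - 1) = 0 := by
      rw [hP]; simp only
      rw [kk_ge (by omega) (by omega), show 2 * r - (2 * r - 1) = 1 by omega, uj_one B.hh]; simp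
    have hd2 : d (2 * r - 1) = 0 := by
      rw [hd]; simp only
      rw [hw.last, hWc.last]; ring
    rw [hF]
    simp only
    rw [show 2 * r - 1 - 1 + 1 = 2 * r - 1 by omega, hP1, hd1, hP2, hd2]
    ring
  unfold gvol
  calc _ ≤ ∑ i ∈ Finset.Icc 2 (2 * r - 2),
        (2 * (Lob (gx r (Wc h ξ r) i) + Lob (gy r (Wc h ξ r) i) + Lob (gz (Wc h ξ r) i)) -
        (F i - F (i - 1))) := Finset.sum_le_sum layer
    _ = _ := by rw [Finset.sum_sub_distrib, hsumF, sub_zero]

/-- **Module E.** The critical value is the maximum of the volume functional of `C(r, r)`. -/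
theorem gf_isGreatest (r : ℕ) (hr : 4 ≤ r) (h ξ : ℝ) (H : Saddle r (1 / r) h ξ) :
    IsGreatest {x | ∃ w, Adm r w ∧ gvol r w = x} (4 * π * KK r (1 / r) h ξ (x0 h ξ)) := by
  constructor
  · exact ⟨Wc h ξ r, Wc_adm hr H, gvol_Wc hr H⟩
  · rintro x ⟨w, hw, rfl⟩
    rw [← gvol_Wc hr H]
    exact gvol_le hr H w hw

end Pool.Agent.Helper5.TB
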