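import Pool.Agent.Helper5.TB.Value

/-!
# Consequences of the saddle equations
-/

set_option autoImplicit false

namespace Pool.Agent.Helper5.TB

open Real Complex
open Pool.Agent.Helper9.TB (Lob ee ll win KK kap x0 WW Saddle)

variable {r : ℕ} {h ξ : ℝ}

/-- elementary consequences of the saddle conditions -/
structure Basic (h ξ τ : ℝ) : Prop where
  hh : 0 < h
  xpos : 0 < ξ
  xlt : ξ < 1 / 4
  hc : 0 < Real.cos (2 * π * ξ)
  hsin : 0 < Real.sin (2 * π * ξ)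
  hC : Real.cosh (2 * π * h) < 3 / 2
  hd : 0 < 1 + Real.cos (2 * π * ξ) * Real.cosh (2 * π * h)
  hs : 0 < Real.cosh (2 * π * h) + Real.cos (2 * π * ξ)
  k1 : -1 < kap h ξ / 2
  k2 : kap h ξ / 2 < 1
  t0 : 0 < τ
  t1 : τ < 1 / 2
  ht : Real.cos (2 * π * τ) = kap h ξ / 2

lemma basic (hr : 4 ≤ r) (H : Saddle r (1 / r) h ξ) : Basic h ξ (x0 h ξ) := by
  have hpi := Real.pi_pos
  have hr4 : (4 : ℝ) ≤ r := by exact_mod_cast hr
  have hh := H.hpos
  have xpos := H.xpos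
  have xlt : ξ < 1 / 4 := by
    have h1 := H.xlt
    have h2 : (1 : ℝ) / r ≤ 1 / 4 := one_div_le_one_div_of_le (by norm_num) hr4
    linarith only [h2, h1]
  have hc : 0 < Real.cos (2 * π * ξ) := by
    apply Real.cos_pos_of_mem_Ioo
    constructor <;> nlinarith only [xpos, hpi, xlt]
  have hsin : 0 < Real.sin (2 * π * ξ) := by
    apply Real.sin_pos_of_pos_of_lt_pi <;> nlinarith
  have hC1 : 1 ≤ Real.cosh (2 * π * h) := Real.one_le_cosh _
  have hC : Real.cosh (2 * π * h) < 3 / 2 := by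
    have h1 := H.small
    have h2 : Real.cosh (2 * π * h) ≤ Real.cosh (2 * π * r * h) := by
      rw [Real.cosh_le_cosh, abs_of_pos (by positivity), abs_of_pos (by positivity)]
      have : 0 < 2 * π * h := by positivity
      nlinarith only [this, hr4, hh, hpi]
    nlinarith only [hC1, xlt, h1, xpos, h2]
  have hd : 0 < 1 + Real.cos (2 * π * ξ) * Real.cosh (2 * π * h) := by
    have := mul_pos hc (by linarith : 0 < Real.cosh (2 * π * h))
    linarith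
  have hs : 0 < Real.cosh (2 * π * h) + Real.cos (2 * π * ξ) := by linarith
  have hcos1 := Real.cos_le_one (2 * π * ξ)
  have k2 := kap_lt hd hs
  have k1 := kap_gt hd (by linarith) (by linarith)
  exact ⟨hh, xpos, xlt, hc, hsin, hC, hd, hs, k1, k2, x0_pos k2, x0_lt k1, x0_cos k1 k2⟩

lemma ee_saddle (hr : 4 ≤ r) (H : Saddle r (1 / r) h ξ) :
    ee h (ξ - x0 h ξ) - ee h (ξ + x0 h ξ) = 2 * π * r * h := by
  have B := basic hr H
  have hpi := Real.pi_pos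
  have hr4 : (4 : ℝ) ≤ r := by exact_mod_cast hr
  obtain ⟨h1, -⟩ := ee_diff B.hh B.hd B.hs B.ht B.k2
  rw [← H.s1] at h1
  have hpos : 0 ≤ ee h (ξ - x0 h ξ) - ee h (ξ + x0 h ξ) := by
    unfold ee
    have hA := cosh_add_cos_pos B.hh (ξ - x0 h ξ)
    have hB := cosh_add_cos_pos B.hh (ξ + x0 h ξ)
    have hst : 0 < Real.sin (2 * π * x0 h ξ) := by
      have h1 := B.t0
      have h2 := B.t1
      apply Real.sin_pos_of_pos_of_lt_pi
      · positivity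
      · nlinarith only [h2, hpi]
    have hAB : Real.cos (2 * π * (ξ + x0 h ξ)) ≤ Real.cos (2 * π * (ξ - x0 h ξ)) := by
      rw [mul_sub (2 * π) ξ, mul_add (2 * π) ξ, Real.cos_sub, Real.cos_add]
      have := mul_pos B.hsin hst
      linarith
    have := Real.log_le_log (by positivity :
      0 < 2 * (Real.cosh (2 * π * h) + Real.cos (2 * π * (ξ + x0 h ξ))))
      (by linarith : 2 * (Real.cosh (2 * π * h) + Real.cos (2 * π * (ξ + x0 h ξ))) ≤
        2 * (Real.cosh (2 * π * h) + Real.cos (2 * π * (ξ - x0 h ξ))))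
    linarith
  have hh := B.hh
  have hpos2 : 0 ≤ 2 * π * r * h := by positivity
  have h2 : |ee h (ξ - x0 h ξ) - ee h (ξ + x0 h ξ)| = |2 * π * r * h| := by
    apply le_antisymm
    · rw [← Real.cosh_le_cosh, h1]
    · rw [← Real.cosh_le_cosh, h1]
  rwa [abs_of_nonneg hpos, abs_of_nonneg hpos2] at h2

/-- `exp (2 π i τ)` -/
noncomputable def TT (τ : ℝ) : ℂ := Complex.exp ((2 * π * τ : ℝ) * I)

lemma TT_ne (τ : ℝ) : TT τ ≠ 0 := Complex.exp_ne_zero _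

lemma TT_norm (τ : ℝ) : ‖TT τ‖ = 1 := Complex.norm_exp_ofReal_mul_I _

lemma ZZ_sub (h ξ τ : ℝ) : ZZ h (ξ - τ) = -(wj h ξ * TT τ) := by
  rw [wj_eq]
  unfold ZZ TT
  rw [neg_neg, ← Complex.exp_add]
  congr 2
  push_cast
  ring

lemma ZZ_add (h ξ τ : ℝ) : ZZ h (ξ + τ) = -(wj h ξ / TT τ) := by
  rw [wj_eq, div_eq_mul_inv]
  unfold ZZ TT
  rw [neg_neg, ← Complex.exp_neg, ← Complex.exp_add]
  congr 2
  push_cast
  ring

lemma one_sub_ZZ_polar (hh : 0 < h) (u : ℝ) : 1 - ZZ h u =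
    Complex.exp (((ee h u - π * h : ℝ) : ℂ) + ((arg (1 - ZZ h u) : ℝ) : ℂ) * I) := by
  have h1 := Complex.norm_mul_exp_arg_mul_I (1 - ZZ h u)
  rw [Complex.exp_add, ← log_norm_one_sub_ZZ hh, ← Complex.ofReal_exp,
    Real.exp_log (norm_pos_iff.2 (one_sub_ZZ_ne hh u)), h1]

/-- the saddle equation for `w` and `T` -/
lemma wT_eq (hr : 4 ≤ r) (H : Saddle r (1 / r) h ξ) :
    wj h ξ ^ r * (1 + wj h ξ * TT (x0 h ξ)) = TT (x0 h ξ) + wj h ξ := by
  have B := basic hr H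
  have e1 := ee_saddle hr H
  have hr4 : (4 : ℝ) ≤ r := by exact_mod_cast hr
  have s2 := H.s2
  have hτ := B.t0
  rw [integral_arg B.hh (by linarith only [hτ])] at s2
  set τ := x0 h ξ with hτdef
  have hT := TT_ne τ
  have l1 : 1 + wj h ξ * TT τ = 1 - ZZ h (ξ - τ) := by rw [ZZ_sub]; ring
  have l2 : TT τ + wj h ξ = TT τ * (1 - ZZ h (ξ + τ)) := by
    rw [ZZ_add]; field_simp; ring
  have p1 := one_sub_ZZ_polar B.hh (ξ - τ)
  have p2 := one_sub_ZZ_polar B.hh (ξ + τ)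
  obtain ⟨α, hα⟩ : ∃ α, α = arg (1 - ZZ h (ξ - τ)) := ⟨_, rfl⟩
  obtain ⟨β, hβ⟩ : ∃ β, β = arg (1 - ZZ h (ξ + τ)) := ⟨_, rfl⟩
  rw [← hα] at s2 p1
  rw [← hβ] at s2 p2
  have hrr : (r : ℝ) * (1 / r) = 1 := by
    have : (r : ℝ) ≠ 0 := by linarith only [hr4]
    field_simp
  have a1 : ee h (ξ - τ) = ee h (ξ + τ) + 2 * π * r * h := by linarith only [e1]
  have a2 : α = β + 2 * π * τ - 2 * π + 2 * π * r * ξ := by
    have e3 : 2 * π * r * (1 / r - ξ) = 2 * π * (r * (1 / r)) - 2 * π * r * ξ := by ring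
    rw [e3, hrr] at s2
    linear_combination s2
  have p3 : wj h ξ ^ r = Complex.exp ((r : ℂ) * ((-(2 * π * h) : ℝ) + ((-(2 * π * ξ) : ℝ) : ℂ) * I)) := by
    rw [wj_eq]
    unfold ZZ
    rw [neg_neg, ← Complex.exp_nat_mul]
  rw [l1, l2, p1, p2, p3]
  unfold TT
  rw [← Complex.exp_add, ← Complex.exp_add, a1, a2]
  have hper : ∀ z : ℂ, Complex.exp z = Complex.exp (z - 2 * π * I) := fun z => by
    rw [Complex.exp_periodic.sub_eq]
  rw [hper (((2 * π * τ : ℝ) : ℂ) * I + _)]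
  congr 1
  push_cast
  ring

/-- `T = -s_{r-1} / s_{r+1}` -/
lemma TT_eq (hr : 4 ≤ r) (H : Saddle r (1 / r) h ξ) :
    -(sj h ξ (r - 1) / sj h ξ (r + 1)) = TT (x0 h ξ) := by
  have B := basic hr H
  have e := wT_eq hr H
  have hc := sj_ne B.hh ξ (j := r + 1) (by omega)
  rw [← neg_div, div_eq_iff hc, sj_eq, sj_eq]
  obtain ⟨m, rfl⟩ : ∃ m, r = m + 1 := ⟨r - 1, by omega⟩
  rw [Nat.add_sub_cancel]
  have hl := lj_ne h ξ
  have hw : lj h ξ ^ 2 = wj h ξ := rfl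
  have e2 : (lj h ξ ^ (m + 1 + 1))⁻¹ = (lj h ξ ^ m)⁻¹ * (wj h ξ)⁻¹ := by
    rw [← hw, ← mul_inv, ← pow_add]
  rw [e2]
  have hw0 := wj_ne h ξ
  have hlm := pow_ne_zero m hl
  field_simp
  linear_combination e

/-- The value at the saddle point as the sum of dilogarithms of the shapes. -/
theorem value_eq (hr : 4 ≤ r) (H : Saddle r (1 / r) h ξ) :
    4 * π * KK r (1 / r) h ξ (x0 h ξ) =
      2 * (2 * ∑ j ∈ Finset.Ico 2 r, BW (uj h ξ j) + BW (uj h ξ r)) := by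
  have B := basic hr H
  have hT := TT_eq hr H
  have hK := KK_value B.hh B.t0.le B.t1.le H.s2
  have h3 : lj h ξ ^ 2 * sj h ξ (r - 1) / sj h ξ (r + 1) = ZZ h (ξ - x0 h ξ) := by
    rw [ZZ_sub, ← hT, mul_div_assoc]; unfold wj; ring
  have h4 : (lj h ξ ^ 2)⁻¹ * sj h ξ (r - 1) / sj h ξ (r + 1) = (ZZ h (ξ + x0 h ξ))⁻¹ := by
    rw [ZZ_add, inv_neg, inv_div, ← hT, mul_div_assoc]; unfold wj
    rw [neg_div, neg_neg, div_eq_mul_inv (sj h ξ (r - 1) / sj h ξ (r + 1))]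
    ring
  have n3 : 1 - lj h ξ ^ 2 * sj h ξ (r - 1) / sj h ξ (r + 1) ≠ 0 := by
    rw [h3]; exact one_sub_ZZ_ne B.hh _
  have n4 : 1 - (lj h ξ ^ 2)⁻¹ * sj h ξ (r - 1) / sj h ξ (r + 1) ≠ 0 := by
    rw [h4]
    intro h0
    have h5 : (ZZ h (ξ + x0 h ξ))⁻¹ = 1 := by linear_combination -h0
    have h6 := congrArg norm h5
    rw [norm_inv, norm_one, inv_eq_one] at h6
    have := ZZ_norm_lt B.hh (ξ + x0 h ξ)
    linarith only [this, h6]
  have L := ladder_total (l := lj h ξ) (sj h ξ) (lj_ne h ξ) (lj_add_ne B.hh ξ)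
    (fun j hj => sj_ne B.hh ξ hj) (sj_rec h ξ) (sj_mul h ξ) (sj_zero h ξ) r (by omega) n3 n4
  rw [h3, h4, hT, BW_inv] at L
  unfold uj
  rw [L, hK]
  unfold TT
  ring

/-- `|s_{r+1}| = |s_{r-1}|` -/
theorem norm_sj_hinge (hr : 4 ≤ r) (H : Saddle r (1 / r) h ξ) :
    ‖sj h ξ (r + 1)‖ = ‖sj h ξ (r - 1)‖ := by
  have B := basic hr H
  have hT := congrArg norm (TT_eq hr H)
  rw [TT_norm, norm_neg, norm_div, div_eq_one_iff_eq] at hT
  · exact hT.symm
  · exact norm_ne_zero_iff.2 (sj_ne B.hh ξ (by omega))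

/-- `|s_r| = |s_1|` -/
theorem norm_sj_r (hr : 4 ≤ r) (H : Saddle r (1 / r) h ξ) : ‖sj h ξ r‖ = ‖sj h ξ 1‖ := by
  have B := basic hr H
  have hT := TT_eq hr H
  obtain ⟨-, hpq⟩ := ee_diff B.hh B.hd B.hs B.ht B.k2
  set τ := x0 h ξ with hτ
  obtain ⟨m, rfl⟩ : ∃ m, r = m + 1 := ⟨r - 1, by omega⟩
  rw [Nat.add_sub_cancel] at hT
  have h1 := sj_rec h ξ m
  have h2 := sj_mul h ξ m
  have hc := sj_ne B.hh ξ (j := m + 2) (by omega)
  set a := sj h ξ m
  set b := sj h ξ (m + 1)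
  set c := sj h ξ (m + 2)
  set s := sj h ξ 1
  set l := lj h ξ with hl
  have hl0 : l ≠ 0 := lj_ne h ξ
  have hw : wj h ξ = l ^ 2 := rfl
  have l1 : 1 - ZZ h (ξ - τ) = 1 + wj h ξ * TT τ := by rw [ZZ_sub]; ring
  have l2 : TT τ * (1 - ZZ h (ξ + τ)) = TT τ + wj h ξ := by
    have := TT_ne τ
    rw [ZZ_add]; field_simp; ring
  have n1 : ‖1 - ZZ h (ξ - τ)‖ = Real.exp (ee h (ξ - τ)) * Real.exp (-(π * h)) := by
    rw [← Real.exp_add, ← sub_eq_add_neg, ← log_norm_one_sub_ZZ B.hh,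
      Real.exp_log (norm_pos_iff.2 (one_sub_ZZ_ne B.hh _))]
  have n2 : ‖1 - ZZ h (ξ + τ)‖ = Real.exp (ee h (ξ + τ)) * Real.exp (-(π * h)) := by
    rw [← Real.exp_add, ← sub_eq_add_neg, ← log_norm_one_sub_ZZ B.hh,
      Real.exp_log (norm_pos_iff.2 (one_sub_ZZ_ne B.hh _))]
  have n3 : ‖wj h ξ‖ = Real.exp (-(π * h)) * Real.exp (-(π * h)) := by
    rw [wj_eq, norm_neg, ZZ_norm, ← Real.exp_add]; congr 1; ring
  have n4 : ‖(1 - TT τ) ^ 2‖ = 2 * (1 - kap h ξ / 2) := by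
    rw [norm_pow, ← Complex.normSq_eq_norm_sq, Complex.normSq_apply]
    unfold TT
    simp only [Complex.sub_re, Complex.one_re, Complex.sub_im, Complex.one_im,
      Complex.exp_ofReal_mul_I_re, Complex.exp_ofReal_mul_I_im, B.ht]
    have := Real.sin_sq_add_cos_sq (2 * π * τ)
    rw [B.ht] at this
    linear_combination this
  have key : ‖(TT τ + wj h ξ) * (1 + wj h ξ * TT τ)‖ = ‖wj h ξ * (1 - TT τ) ^ 2‖ := by
    rw [← l1, ← l2, norm_mul, norm_mul, norm_mul, TT_norm, one_mul, n1, n2, n3, n4, ← hpq]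
    ring
  have k1 : (TT τ + wj h ξ) * (1 + wj h ξ * TT τ) = ((l ^ 2 + 1) * s / c) ^ 2 := by
    rw [← hT, hw]
    have hc' : c = (l + l⁻¹) * b - a := by linear_combination h1
    have h2' : s ^ 2 = b ^ 2 - a * c := by linear_combination h2
    rw [div_pow, mul_pow, h2']
    field_simp
    rw [hc']
    field_simp
    ring
  have k2 : wj h ξ * (1 - TT τ) ^ 2 = ((l ^ 2 + 1) * b / c) ^ 2 := by
    rw [← hT, hw]
    have hca : 1 - -(a / c) = (l + l⁻¹) * b / c := by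
      rw [← h1]; field_simp; ring
    rw [hca]
    field_simp
  rw [k1, k2, norm_pow, norm_pow] at key
  have key2 := (sq_eq_sq₀ (norm_nonneg _) (norm_nonneg _)).1 key
  rw [norm_div, norm_div, norm_mul, norm_mul] at key2
  have nc : ‖c‖ ≠ 0 := norm_ne_zero_iff.2 hc
  have nl : ‖l ^ 2 + 1‖ ≠ 0 := by
    apply norm_ne_zero_iff.2
    have := lj_add_ne B.hh ξ
    intro h0
    apply this
    rw [← hl]
    field_simp
    rw [mul_zero]
    exact h0
  rw [div_left_inj' nc] at key2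
  exact (mul_left_cancel₀ nl key2).symm

end Pool.Agent.Helper5.TB
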