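import Pool.Agent.Helper5.TB.Circle

/-!
# The value at the saddle point
-/

set_option autoImplicit false

namespace Pool.Agent.Helper5.TB

open Real Complex
open Pool.Agent.Helper9.TB (Lob ee ll win KK kap x0 WW Saddle)

/-- `sin (j π (ξ - i h))` -/
noncomputable def sj (h ξ : ℝ) (j : ℕ) : ℂ := Complex.sin (j * (π * (ξ - h * I)))

/-- the shape of the `j`-th tetrahedron -/
noncomputable def uj (h ξ : ℝ) (j : ℕ) : ℂ := (sj h ξ j / sj h ξ 1) ^ 2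

/-- `exp (-i π (ξ - i h))` -/
noncomputable def lj (h ξ : ℝ) : ℂ := Complex.exp (-(π * (ξ - h * I)) * I)

/-- `w = exp (-2 π i (ξ - i h))` -/
noncomputable def wj (h ξ : ℝ) : ℂ := (lj h ξ) ^ 2

lemma lj_ne (h ξ : ℝ) : lj h ξ ≠ 0 := Complex.exp_ne_zero _

lemma lj_inv (h ξ : ℝ) : (lj h ξ)⁻¹ = Complex.exp ((π * (ξ - h * I)) * I) := by
  unfold lj
  rw [← Complex.exp_neg]
  congr 1; ring

lemma lj_add (h ξ : ℝ) : lj h ξ + (lj h ξ)⁻¹ = 2 * Complex.cos (π * (ξ - h * I)) := by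
  rw [lj_inv, Complex.two_cos, lj]
  ring

lemma wj_eq (h ξ : ℝ) : wj h ξ = -ZZ h ξ := by
  unfold wj lj ZZ
  rw [neg_neg, ← Complex.exp_nat_mul]
  congr 1
  push_cast
  have := Complex.I_mul_I
  linear_combination (-2 * π * h : ℂ) * this * (-1)

lemma wj_norm_lt {h : ℝ} (hh : 0 < h) (ξ : ℝ) : ‖wj h ξ‖ < 1 := by
  rw [wj_eq, norm_neg]; exact ZZ_norm_lt hh ξ

lemma wj_ne (h ξ : ℝ) : wj h ξ ≠ 0 := pow_ne_zero 2 (lj_ne h ξ)

lemma sj_rec (h ξ : ℝ) (j : ℕ) :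
    sj h ξ (j + 2) + sj h ξ j = (lj h ξ + (lj h ξ)⁻¹) * sj h ξ (j + 1) := by
  rw [lj_add]
  unfold sj
  set θ : ℂ := π * (ξ - h * I)
  have e1 : ((j + 2 : ℕ) : ℂ) * θ = ((j + 1 : ℕ) : ℂ) * θ + θ := by push_cast; ring
  have e2 : (j : ℂ) * θ = ((j + 1 : ℕ) : ℂ) * θ - θ := by push_cast; ring
  rw [e1, e2, Complex.sin_add, Complex.sin_sub]
  ring

lemma sj_mul (h ξ : ℝ) (j : ℕ) :
    sj h ξ j * sj h ξ (j + 2) = sj h ξ (j + 1) ^ 2 - sj h ξ 1 ^ 2 := by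
  unfold sj
  set θ : ℂ := π * (ξ - h * I)
  have e1 : ((j + 2 : ℕ) : ℂ) * θ = ((j + 1 : ℕ) : ℂ) * θ + θ := by push_cast; ring
  have e2 : (j : ℂ) * θ = ((j + 1 : ℕ) : ℂ) * θ - θ := by push_cast; ring
  have e3 : ((1 : ℕ) : ℂ) * θ = θ := by push_cast; ring
  rw [e1, e2, e3, Complex.sin_add, Complex.sin_sub]
  have h1 := Complex.sin_sq_add_cos_sq θ
  have h2 := Complex.sin_sq_add_cos_sq (((j + 1 : ℕ) : ℂ) * θ)
  linear_combination Complex.sin (((j + 1 : ℕ) : ℂ) * θ) ^ 2 * h1 - Complex.sin θ ^ 2 * h2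

lemma sj_zero (h ξ : ℝ) : sj h ξ 0 = 0 := by simp [sj]

lemma sj_eq (h ξ : ℝ) (j : ℕ) :
    sj h ξ j = ((lj h ξ) ^ j)⁻¹ * (1 - wj h ξ ^ j) / (2 * I) := by
  unfold sj wj
  rw [eq_div_iff (by simp), ← pow_mul]
  have e1 : lj h ξ ^ j = Complex.exp (-((j : ℂ) * (π * (ξ - h * I)) * I)) := by
    unfold lj
    rw [← Complex.exp_nat_mul]; congr 1; ring
  have e2 : lj h ξ ^ (2 * j) = lj h ξ ^ j * lj h ξ ^ j := by rw [two_mul, pow_add]
  have e4 : (lj h ξ ^ j)⁻¹ * (1 - lj h ξ ^ j * lj h ξ ^ j) = (lj h ξ ^ j)⁻¹ - lj h ξ ^ j := by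
    have := pow_ne_zero j (lj_ne h ξ)
    field_simp
  rw [e2, e4, e1, ← Complex.exp_neg, neg_neg, Complex.sin]
  have := Complex.I_mul_I
  have h3 : Complex.exp (-((j : ℂ) * (π * (ξ - h * I))) * I) =
      Complex.exp (-((j : ℂ) * (π * (ξ - h * I)) * I)) := by congr 1; ring
  rw [h3]
  linear_combination (Complex.exp (-((j : ℂ) * (π * (ξ - h * I)) * I)) -
    Complex.exp ((j : ℂ) * (π * (ξ - h * I)) * I)) * this

lemma one_sub_wj_pow_ne {h : ℝ} (hh : 0 < h) (ξ : ℝ) {j : ℕ} (hj : 1 ≤ j) :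
    1 - wj h ξ ^ j ≠ 0 := by
  intro h0
  have h1 : wj h ξ ^ j = 1 := by linear_combination -h0
  have h2 := congrArg norm h1
  rw [norm_pow, norm_one] at h2
  have h3 : ‖wj h ξ‖ ^ j < 1 := pow_lt_one₀ (norm_nonneg _) (wj_norm_lt hh ξ) (by omega)
  linarith

lemma sj_ne {h : ℝ} (hh : 0 < h) (ξ : ℝ) {j : ℕ} (hj : 1 ≤ j) : sj h ξ j ≠ 0 := by
  rw [sj_eq]
  exact div_ne_zero (mul_ne_zero (inv_ne_zero (pow_ne_zero _ (lj_ne h ξ)))
    (one_sub_wj_pow_ne hh ξ hj)) (by simp)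

lemma lj_add_ne {h : ℝ} (hh : 0 < h) (ξ : ℝ) : lj h ξ + (lj h ξ)⁻¹ ≠ 0 := by
  intro h0
  have h1 := sj_rec h ξ 0
  rw [h0, zero_mul, sj_zero, add_zero] at h1
  exact sj_ne hh ξ (by norm_num) h1

/-! ### The saddle equations -/

section

variable {h ξ : ℝ}

lemma kap_spec (hd : 0 < 1 + Real.cos (2 * π * ξ) * Real.cosh (2 * π * h)) :
    kap h ξ / 2 * (2 * (1 + Real.cos (2 * π * ξ) * Real.cosh (2 * π * h))) =
      2 - Real.cos (2 * π * ξ) ^ 2 - Real.cosh (2 * π * h) ^ 2 := by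
  unfold kap
  field_simp

lemma kap_lt (hd : 0 < 1 + Real.cos (2 * π * ξ) * Real.cosh (2 * π * h))
    (hs : 0 < Real.cosh (2 * π * h) + Real.cos (2 * π * ξ)) : kap h ξ / 2 < 1 := by
  have := kap_spec hd
  by_contra hc
  push Not at hc
  nlinarith only [hs, hc, hd, this]

lemma kap_gt (hd : 0 < 1 + Real.cos (2 * π * ξ) * Real.cosh (2 * π * h))
    (hs : 0 ≤ Real.cosh (2 * π * h) - Real.cos (2 * π * ξ))
    (hs2 : Real.cosh (2 * π * h) - Real.cos (2 * π * ξ) < 2) : -1 < kap h ξ / 2 := by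
  have := kap_spec hd
  by_contra hc
  push Not at hc
  nlinarith only [hs, hc, hd, this, hs2]

lemma x0_cos (h1 : -1 < kap h ξ / 2) (h2 : kap h ξ / 2 < 1) :
    Real.cos (2 * π * x0 h ξ) = kap h ξ / 2 := by
  unfold x0
  have hpi := Real.pi_pos
  rw [mul_div_cancel₀ _ (by positivity : (2 * π : ℝ) ≠ 0), Real.cos_arccos h1.le h2.le]

lemma x0_pos (h2 : kap h ξ / 2 < 1) : 0 < x0 h ξ := by
  unfold x0
  have hpi := Real.pi_pos
  have := Real.arccos_pos.2 h2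
  positivity

lemma x0_lt (h1 : -1 < kap h ξ / 2) : x0 h ξ < 1 / 2 := by
  unfold x0
  have hpi := Real.pi_pos
  have h3 : Real.arccos (kap h ξ / 2) < π := by
    rcases lt_or_eq_of_le (Real.arccos_le_pi (kap h ξ / 2)) with h | h
    · exact h
    · rw [Real.arccos_eq_pi] at h; linarith
  rw [div_lt_iff₀ (by positivity)]
  linarith

/-- the product of the two values of `C + cos` -/
lemma AB_eq (hd : 0 < 1 + Real.cos (2 * π * ξ) * Real.cosh (2 * π * h)) {τ : ℝ}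
    (hτ : Real.cos (2 * π * τ) = kap h ξ / 2) :
    (Real.cosh (2 * π * h) + Real.cos (2 * π * (ξ - τ))) *
      (Real.cosh (2 * π * h) + Real.cos (2 * π * (ξ + τ))) = (1 - kap h ξ / 2) ^ 2 := by
  have hk := kap_spec hd
  rw [← hτ] at hk ⊢
  rw [mul_sub (2 * π) ξ τ, mul_add (2 * π) ξ τ, Real.cos_sub, Real.cos_add]
  have e1 := Real.sin_sq_add_cos_sq (2 * π * ξ)
  have e2 := Real.sin_sq_add_cos_sq (2 * π * τ)
  linear_combination hk - Real.sin (2 * π * τ) ^ 2 * e1 + (Real.cos (2 * π * ξ) ^ 2 - 1) * e2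

lemma ee_diff (hh : 0 < h) (hd : 0 < 1 + Real.cos (2 * π * ξ) * Real.cosh (2 * π * h))
    (hs : 0 < Real.cosh (2 * π * h) + Real.cos (2 * π * ξ)) {τ : ℝ}
    (hτ : Real.cos (2 * π * τ) = kap h ξ / 2) (hk : kap h ξ / 2 < 1) :
    Real.cosh (ee h (ξ - τ) - ee h (ξ + τ)) = WW h ξ ∧
    Real.exp (ee h (ξ - τ)) * Real.exp (ee h (ξ + τ)) = 2 * (1 - kap h ξ / 2) := by
  have hA := cosh_add_cos_pos hh (ξ - τ)
  have hB := cosh_add_cos_pos hh (ξ + τ)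
  set p := Real.exp (ee h (ξ - τ)) with hp
  set q := Real.exp (ee h (ξ + τ)) with hq
  have hp0 : 0 < p := Real.exp_pos _
  have hq0 : 0 < q := Real.exp_pos _
  have hp2 : p ^ 2 = 2 * (Real.cosh (2 * π * h) + Real.cos (2 * π * (ξ - τ))) := by
    rw [hp, ← Real.exp_nat_mul, ee]
    push_cast
    rw [mul_div_cancel₀ _ (two_ne_zero), Real.exp_log (by positivity)]
  have hq2 : q ^ 2 = 2 * (Real.cosh (2 * π * h) + Real.cos (2 * π * (ξ + τ))) := by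
    rw [hq, ← Real.exp_nat_mul, ee]
    push_cast
    rw [mul_div_cancel₀ _ (two_ne_zero), Real.exp_log (by positivity)]
  have hAB := AB_eq hd hτ
  have hpq : p * q = 2 * (1 - kap h ξ / 2) := by
    have : (p * q) ^ 2 = (2 * (1 - kap h ξ / 2)) ^ 2 := by
      rw [mul_pow, hp2, hq2, mul_pow, ← hAB]; ring
    exact (sq_eq_sq₀ (by positivity) (by linarith)).1 this
  refine ⟨?_, hpq⟩
  have e1 : Real.cosh (ee h (ξ - τ) - ee h (ξ + τ)) = (p ^ 2 + q ^ 2) / (2 * (p * q)) := by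
    rw [Real.cosh_eq, neg_sub, Real.exp_sub, Real.exp_sub, ← hp, ← hq]
    field_simp
  have hk' := kap_spec hd
  rw [e1, hp2, hq2, hpq]
  unfold WW
  rw [div_eq_div_iff (by linarith [hk] : (2 * (2 * (1 - kap h ξ / 2))) ≠ 0) hs.ne']
  rw [mul_sub (2 * π) ξ τ, mul_add (2 * π) ξ τ, Real.cos_sub, Real.cos_add, hτ]
  linear_combination 4 * hk'

end

end Pool.Agent.Helper5.TB
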